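import Mathlib

/-!
# Minimum degree thresholds forcing a spanning hypercube: definitions
-/

set_option autoImplicit false

namespace Pool.Agent.Lib.MP_33d9ce_co

/-- The `n`-dimensional hypercube graph: the vertices are the `0`-`1`-strings of length `n`, adjacent when
they differ in exactly one coordinate. -/
def hypercube (n : ℕ) : SimpleGraph (Fin n → Bool) where
  Adj x y := ∃! i, x i ≠ y i
  symm := ⟨fun x y h => by
    obtain ⟨i, h1, h2⟩ := h
    exact ⟨i, h1.symm, fun j hj => h2 j hj.symm⟩⟩
  loopless := ⟨fun x h => by
    obtain ⟨i, h1, _⟩ := h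
    exact h1 rfl⟩

/-- `G` contains `Q_n`: an injective map from the vertices of `Q_n` to the vertices of `G` sends every edge
of `Q_n` to an edge of `G`. -/
def ContainsCube (n : ℕ) {V : Type} (G : SimpleGraph V) : Prop :=
  ∃ f : (Fin n → Bool) → V, Function.Injective f ∧
    ∀ x y, (hypercube n).Adj x y → G.Adj (f x) (f y)

/-- The set of all `u ≥ 1` such that every graph on `2 ^ n` vertices with all degrees greater than
`2 ^ n - u` contains `Q_n`. -/
def admissible (n : ℕ) : Set ℕ :=
  {u | 1 ≤ u ∧ ∀ (G : SimpleGraph (Fin (2 ^ n))) [DecidableRel G.Adj],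
    (∀ v, 2 ^ n < G.degree v + u) → ContainsCube n G}

/-- The threshold `u_n`: the largest element of `admissible n`. -/
noncomputable def threshold (n : ℕ) : ℕ := sSup (admissible n)

end Pool.Agent.Lib.MP_33d9ce_co
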