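import Pool.Agent.Lib.MP_33d9ce_co.Harper

/-!
# Separators of the hypercube and the upper bound for the minimum degree threshold
-/

set_option autoImplicit false

namespace Pool.Agent.Lib.MP_33d9ce_co

open Finset

lemma V_half_odd (k : ℕ) : V (2 * k + 1) (k + 1) = 4 ^ k := Nat.sum_range_choose_halfway k

lemma V_half_even (k : ℕ) : 2 * V (2 * k) k + (2 * k).choose k = 4 ^ k := by
  have h1 := V_half_odd k
  rw [V_pascal, V_succ] at h1
  omega

/-- **Separators.** If `A`, `B` are nonadjacent sets of vertices of the cube, then at least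
`C(n, n/2)` vertices are missing as soon as the sizes of `A` and `B` differ by at most one. -/
theorem separator {n : ℕ} (A B : Finset (Fin n → Bool)) (hA : A.Nonempty)
    (hdis : Disjoint (clo A) B) (h1 : B.card ≤ A.card + 1) (h2 : A.card ≤ B.card) :
    n.choose (n / 2) ≤ 2 ^ n - (A.card + B.card) := by
  by_contra hcon
  have hAB : (clo A).card + B.card ≤ 2 ^ n := by
    rw [← Finset.card_union_of_disjoint hdis]
    calc (clo A ∪ B).card ≤ (univ : Finset (Fin n → Bool)).card := Finset.card_le_card (subset_univ _)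
      _ = 2 ^ n := by simp
  have hAle : A.card ≤ (clo A).card := Finset.card_le_card (subset_clo A)
  have hlt : 2 ^ n < A.card + B.card + n.choose (n / 2) := by omega
  rcases Nat.even_or_odd' n with ⟨k, hk | hk⟩
  · subst hk
    have hdiv : 2 * k / 2 = k := by omega
    rw [hdiv] at hlt
    have e1 := V_half_even k
    have e4 : (2 : ℕ) ^ (2 * k) = 4 ^ k := by rw [pow_mul]; norm_num
    rw [e4] at hlt hAB
    have hV : V (2 * k) k ≤ A.card := by omega
    have h := isoperimetric (2 * k) A hA k 0 le_rfl zero_le_one (by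
      simp only [zero_mul, add_zero]
      exact_mod_cast hV)
    simp only [zero_mul, add_zero] at h
    have h' : V (2 * k) (k + 1) ≤ (clo A).card := by exact_mod_cast h
    rw [V_succ] at h'
    omega
  · subst hk
    have hdiv : (2 * k + 1) / 2 = k := by omega
    rw [hdiv] at hlt
    have e1 := V_half_odd k
    rw [V_succ] at e1
    have e4 : (2 : ℕ) ^ (2 * k + 1) = 2 * 4 ^ k := by rw [pow_succ, pow_mul]; norm_num; ring
    rw [e4] at hlt hAB
    have hsymm : (2 * k + 1).choose (k + 1) = (2 * k + 1).choose k := by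
      rw [← Nat.choose_symm_of_eq_add (n := 2 * k + 1) (a := k) (b := k + 1) (by ring)]
    have hVA : 2 * V (2 * k + 1) k + (2 * k + 1).choose k ≤ 2 * A.card := by omega
    have h := isoperimetric (2 * k + 1) A hA k (1 / 2) (by norm_num) (by norm_num) (by
      have : (2 : ℝ) * (V (2 * k + 1) k : ℝ) + ((2 * k + 1).choose k : ℝ) ≤ 2 * (A.card : ℝ) := by
        exact_mod_cast hVA
      linarith)
    rw [hsymm, V_succ] at h
    have h' : 2 * (V (2 * k + 1) k + (2 * k + 1).choose k) + (2 * k + 1).choose k ≤
        2 * (clo A).card := by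
      have : (2 : ℝ) * ((V (2 * k + 1) k : ℝ) + ((2 * k + 1).choose k : ℝ)) +
          ((2 * k + 1).choose k : ℝ) ≤ 2 * ((clo A).card : ℝ) := by
        push_cast at h
        linarith
      exact_mod_cast this
    omega

/-! ### The graph -/

/-- The graph on `2 ^ n` vertices without a spanning hypercube: all edges except those between the classes
`[s, s + a)` and `[s + a, 2 ^ n)`. -/
def sepGraph (N s a : ℕ) : SimpleGraph (Fin N) where
  Adj i j := i ≠ j ∧ ¬ ((s ≤ i.val ∧ i.val < s + a) ∧ s + a ≤ j.val) ∧
    ¬ ((s ≤ j.val ∧ j.val < s + a) ∧ s + a ≤ i.val)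
  symm := ⟨fun i j h => ⟨h.1.symm, h.2.2, h.2.1⟩⟩
  loopless := ⟨fun i h => h.1 rfl⟩

instance (N s a : ℕ) : DecidableRel (sepGraph N s a).Adj := fun i j => by
  unfold sepGraph
  infer_instance

lemma card_class1 (N s a : ℕ) (h : s + a ≤ N) :
    (univ.filter fun i : Fin N => s ≤ i.val ∧ i.val < s + a).card = a := by
  have : ((univ.filter fun i : Fin N => s ≤ i.val ∧ i.val < s + a).map Fin.valEmbedding) =
      Finset.Ico s (s + a) := by
    ext j
    simp only [Finset.mem_map, Finset.mem_filter, Finset.mem_univ, true_and, Finset.mem_Ico,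
      Fin.valEmbedding_apply]
    constructor
    · rintro ⟨i, hi, rfl⟩; exact hi
    · intro hj; exact ⟨⟨j, by omega⟩, hj, rfl⟩
  rw [← Finset.card_map, this, Nat.card_Ico]
  omega

lemma card_class2 (N t : ℕ) (h : t ≤ N) :
    (univ.filter fun i : Fin N => t ≤ i.val).card = N - t := by
  have : ((univ.filter fun i : Fin N => t ≤ i.val).map Fin.valEmbedding) =
      Finset.Ico t N := by
    ext j
    simp only [Finset.mem_map, Finset.mem_filter, Finset.mem_univ, true_and, Finset.mem_Ico,
      Fin.valEmbedding_apply]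
    constructor
    · rintro ⟨i, hi, rfl⟩; exact ⟨hi, i.2⟩
    · intro hj; exact ⟨⟨j, hj.2⟩, hj.1, rfl⟩
  rw [← Finset.card_map, this, Nat.card_Ico]

/-- degrees -/
lemma sepGraph_degree {N s a : ℕ} (h : s + a ≤ N) (v : Fin N) :
    N ≤ (sepGraph N s a).degree v + (max a (N - (s + a)) + 1) := by
  classical
  set X := univ.filter fun i : Fin N => s ≤ i.val ∧ i.val < s + a with hX
  set Y := univ.filter fun i : Fin N => s + a ≤ i.val with hY
  have hXc : X.card = a := card_class1 N s a h
  have hYc : Y.card = N - (s + a) := card_class2 N (s + a) h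
  have key : ∃ Z : Finset (Fin N), Z.card ≤ max a (N - (s + a)) ∧
      (univ : Finset (Fin N)) ⊆ ((sepGraph N s a).neighborFinset v ∪ {v}) ∪ Z := by
    by_cases h1 : s ≤ v.val ∧ v.val < s + a
    · refine ⟨Y, by rw [hYc]; exact le_max_right _ _, fun w _ => ?_⟩
      by_cases hw : s + a ≤ w.val
      · exact Finset.mem_union_right _ (by simp [hY, hw])
      · refine Finset.mem_union_left _ ?_
        rw [Finset.mem_union, SimpleGraph.mem_neighborFinset, Finset.mem_singleton]
        by_cases hvw : w = v
        · exact Or.inr hvw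
        · left
          refine ⟨fun e => hvw e.symm, fun e => hw e.2, fun e => ?_⟩
          omega
    · by_cases h2 : s + a ≤ v.val
      · refine ⟨X, by rw [hXc]; exact le_max_left _ _, fun w _ => ?_⟩
        by_cases hw : s ≤ w.val ∧ w.val < s + a
        · exact Finset.mem_union_right _ (by simp [hX, hw])
        · refine Finset.mem_union_left _ ?_
          rw [Finset.mem_union, SimpleGraph.mem_neighborFinset, Finset.mem_singleton]
          by_cases hvw : w = v
          · exact Or.inr hvw
          · left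
            exact ⟨fun e => hvw e.symm, fun e => h1 e.1, fun e => hw e.1⟩
      · refine ⟨∅, by simp, fun w _ => ?_⟩
        refine Finset.mem_union_left _ ?_
        rw [Finset.mem_union, SimpleGraph.mem_neighborFinset, Finset.mem_singleton]
        by_cases hvw : w = v
        · exact Or.inr hvw
        · left
          exact ⟨fun e => hvw e.symm, fun e => h1 e.1, fun e => h2 e.2⟩
  obtain ⟨Z, hZ, hcov⟩ := key
  have h3 := Finset.card_le_card hcov
  have h4 := Finset.card_union_le ((sepGraph N s a).neighborFinset v ∪ {v}) Z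
  have h5 := Finset.card_union_le ((sepGraph N s a).neighborFinset v) {v}
  rw [Finset.card_univ, Fintype.card_fin] at h3
  rw [Finset.card_singleton, SimpleGraph.card_neighborFinset_eq_degree] at h5
  omega

/-- The graph does not contain the cube. -/
lemma sepGraph_not_contains {n s a : ℕ} (hs : s < n.choose (n / 2)) (ha : 0 < a)
    (h1 : s + 2 * a ≤ 2 ^ n) (h2 : 2 ^ n ≤ s + 2 * a + 1) :
    ¬ ContainsCube n (sepGraph (2 ^ n) s a) := by
  classical
  rintro ⟨f, hf, hadj⟩
  have hbij : Function.Bijective f := by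
    rw [Fintype.bijective_iff_injective_and_card]
    exact ⟨hf, by simp⟩
  set A : Finset (Fin n → Bool) := univ.filter fun x => s ≤ (f x).val ∧ (f x).val < s + a with hA
  set B : Finset (Fin n → Bool) := univ.filter fun x => s + a ≤ (f x).val with hB
  have hAc : A.card = a := by
    rw [← card_class1 (2 ^ n) s a (by omega)]
    refine Finset.card_bij (fun x _ => f x) (fun x hx => ?_) (fun x _ y _ e => hf e) (fun y hy => ?_)
    · simpa [hA] using hx
    · obtain ⟨x, rfl⟩ := hbij.2 y
      exact ⟨x, by simpa [hA] using hy, rfl⟩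
  have hBc : B.card = 2 ^ n - (s + a) := by
    rw [← card_class2 (2 ^ n) (s + a) (by omega)]
    refine Finset.card_bij (fun x _ => f x) (fun x hx => ?_) (fun x _ y _ e => hf e) (fun y hy => ?_)
    · simpa [hB] using hx
    · obtain ⟨x, rfl⟩ := hbij.2 y
      exact ⟨x, by simpa [hB] using hy, rfl⟩
  have hdis : Disjoint (clo A) B := by
    rw [Finset.disjoint_left]
    intro x hx hxB
    rw [mem_clo] at hx
    have hxB' : s + a ≤ (f x).val := by simpa [hB] using hxB
    rcases hx with hx | ⟨y, hy, hyx⟩
    · have : s ≤ (f x).val ∧ (f x).val < s + a := by simpa [hA] using hx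
      omega
    · have hy' : s ≤ (f y).val ∧ (f y).val < s + a := by simpa [hA] using hy
      exact (hadj y x hyx).2.1 ⟨hy', hxB'⟩
  have h := separator A B (Finset.card_pos.1 (by omega)) hdis (by omega) (by omega)
  omega

lemma choose_lt {n : ℕ} (hn : 1 ≤ n) : n.choose (n / 2) < 2 ^ n := by
  rcases Nat.even_or_odd' n with ⟨k, hk | hk⟩
  · subst hk
    have h := V_half_even k
    have e4 : (2 : ℕ) ^ (2 * k) = 4 ^ k := by rw [pow_mul]; norm_num
    have hk1 : 1 ≤ k := by omega
    have h1 : 1 ≤ V (2 * k) k := by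
      obtain ⟨j, rfl⟩ := Nat.exists_eq_succ_of_ne_zero (by omega : k ≠ 0)
      exact one_le_V _ _
    have hdiv : 2 * k / 2 = k := by omega
    rw [hdiv, e4]
    omega
  · subst hk
    have h := V_half_odd k
    rw [V_succ] at h
    have hdiv : (2 * k + 1) / 2 = k := by omega
    have e4 : (2 : ℕ) ^ (2 * k + 1) = 2 * 4 ^ k := by rw [pow_succ, pow_mul]; norm_num; ring
    have : 0 < 4 ^ k := by positivity
    rw [hdiv, e4]
    omega

/-- **Main result**: a graph on `2 ^ n` vertices of large minimum degree without a spanning cube. -/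
theorem exists_graph {n : ℕ} (hn : 1 ≤ n) : ∃ (G : SimpleGraph (Fin (2 ^ n))) (_ : DecidableRel G.Adj),
    (∀ v, 2 ^ n + n.choose (n / 2) ≤ 2 * G.degree v + 4) ∧ ¬ ContainsCube n G := by
  have hC := choose_lt hn
  have hC1 : 0 < n.choose (n / 2) := Nat.choose_pos (Nat.div_le_self n 2)
  set C := n.choose (n / 2) with hCdef
  set s := C - 1 with hs
  set a := (2 ^ n - s) / 2 with ha
  refine ⟨sepGraph (2 ^ n) s a, inferInstance, fun v => ?_, ?_⟩
  · have h := sepGraph_degree (N := 2 ^ n) (s := s) (a := a) (by omega) v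
    have : max a (2 ^ n - (s + a)) = 2 ^ n - (s + a) := by omega
    rw [this] at h
    omega
  · exact sepGraph_not_contains (by omega) (by omega) (by omega) (by omega)

theorem upper {n : ℕ} (hn : 1 ≤ n) {u : ℕ} (hu : u ∈ admissible n) :
    2 * u + n.choose (n / 2) ≤ 2 ^ n + 4 := by
  obtain ⟨G, _, h1, h2⟩ := exists_graph hn
  by_contra hcon
  apply h2
  apply hu.2 G
  intro v
  have := h1 v
  omega

theorem one_mem (n : ℕ) : 1 ∈ admissible n := by
  refine ⟨le_rfl, fun G _ h => ?_⟩
  exfalso
  have hpos : 0 < 2 ^ n := by positivity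
  have h1 := h ⟨0, hpos⟩
  have h2 := G.degree_lt_card_verts ⟨0, hpos⟩
  rw [Fintype.card_fin] at h2
  omega

theorem threshold_isGreatest {n : ℕ} (hn : 1 ≤ n) : IsGreatest (admissible n) (threshold n) := by
  have hb : BddAbove (admissible n) := ⟨2 ^ n + 4, fun u hu => by have := upper hn hu; omega⟩
  exact ⟨Nat.sSup_mem ⟨1, one_mem n⟩ hb, fun u hu => le_csSup hb hu⟩

end Pool.Agent.Lib.MP_33d9ce_co
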