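import Pool.Agent.Lib.MP_33d9ce_co.Defs

/-!
# A vertex isoperimetric inequality in the hypercube (a relaxed form of Harper's theorem)

If `|A| ≥ ∑_{i < r} C(n,i) + θ C(n,r)` with `0 ≤ θ ≤ 1` then the closed neighbourhood of `A` has at least
`∑_{i ≤ r} C(n,i) + θ C(n,r+1)` elements.
-/

set_option autoImplicit false

namespace Pool.Agent.Lib.MP_33d9ce_co

open Finset

open Classical in
/-- closed neighbourhood -/
noncomputable def clo {n : ℕ} (A : Finset (Fin n → Bool)) : Finset (Fin n → Bool) :=
  univ.filter fun x => x ∈ A ∨ ∃ y ∈ A, (hypercube n).Adj y x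

lemma mem_clo {n : ℕ} {A : Finset (Fin n → Bool)} {x : Fin n → Bool} :
    x ∈ clo A ↔ x ∈ A ∨ ∃ y ∈ A, (hypercube n).Adj y x := by
  simp [clo]

lemma subset_clo {n : ℕ} (A : Finset (Fin n → Bool)) : A ⊆ clo A := fun _ hx =>
  mem_clo.2 (Or.inl hx)

/-- a section -/
def sec {n : ℕ} (s : Bool) (A : Finset (Fin (n + 1) → Bool)) : Finset (Fin n → Bool) :=
  univ.filter fun x => (Fin.cons s x : Fin (n + 1) → Bool) ∈ A

lemma mem_sec {n : ℕ} {s : Bool} {A : Finset (Fin (n + 1) → Bool)} {x : Fin n → Bool} :
    x ∈ sec s A ↔ (Fin.cons s x : Fin (n + 1) → Bool) ∈ A := by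
  simp [sec]

lemma card_sec {n : ℕ} (A : Finset (Fin (n + 1) → Bool)) :
    (sec false A).card + (sec true A).card = A.card := by
  have h1 : A.card = (A.filter (fun x => x 0 = false)).card + (A.filter (fun x => x 0 = true)).card := by
    rw [← Finset.card_filter_add_card_filter_not (s := A) (fun x => x 0 = false)]
    congr 2
    ext x
    simp
  have h2 : ∀ s : Bool, (sec s A).card = (A.filter (fun x => x 0 = s)).card := by
    intro s
    refine Finset.card_bij (fun x _ => (Fin.cons s x : Fin (n + 1) → Bool)) ?_ ?_ ?_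
    · intro x hx
      rw [mem_sec] at hx
      simp [hx]
    · intro x _ y _ h
      exact Fin.cons_right_injective _ h
    · intro y hy
      rw [Finset.mem_filter] at hy
      refine ⟨Fin.tail y, ?_, ?_⟩
      · rw [mem_sec, ← hy.2, Fin.cons_self_tail]
        exact hy.1
      · rw [← hy.2, Fin.cons_self_tail]
  rw [h1, h2, h2]

lemma adj_cons_same {n : ℕ} (s : Bool) {x y : Fin n → Bool} (h : (hypercube n).Adj x y) :
    (hypercube (n + 1)).Adj (Fin.cons s x) (Fin.cons s y) := by
  obtain ⟨i, h1, h2⟩ := h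
  refine ⟨i.succ, by simpa using h1, ?_⟩
  intro j hj
  refine Fin.cases ?_ (fun j => ?_) j hj
  · intro h; simp at h
  · intro h
    rw [h2 j (by simpa using h)]

lemma adj_cons_diff {n : ℕ} {s t : Bool} (h : s ≠ t) (x : Fin n → Bool) :
    (hypercube (n + 1)).Adj (Fin.cons s x) (Fin.cons t x) := by
  refine ⟨0, by simpa using h, ?_⟩
  intro j hj
  refine Fin.cases ?_ (fun j => ?_) j hj
  · intro _; rfl
  · intro h; simp at h

lemma clo_sec_subset {n : ℕ} (s : Bool) (A : Finset (Fin (n + 1) → Bool)) :
    clo (sec s A) ⊆ sec s (clo A) := by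
  intro x hx
  rw [mem_clo] at hx
  rw [mem_sec, mem_clo]
  rcases hx with hx | ⟨y, hy, hxy⟩
  · exact Or.inl (mem_sec.1 hx)
  · exact Or.inr ⟨_, mem_sec.1 hy, adj_cons_same s hxy⟩

lemma sec_subset_sec_clo {n : ℕ} {s t : Bool} (h : s ≠ t) (A : Finset (Fin (n + 1) → Bool)) :
    sec s A ⊆ sec t (clo A) := by
  intro x hx
  rw [mem_sec, mem_clo]
  exact Or.inr ⟨_, mem_sec.1 hx, adj_cons_diff h x⟩

/-- the size of a Hamming ball -/
def V (n r : ℕ) : ℕ := ∑ i ∈ range r, n.choose i

lemma V_succ (n r : ℕ) : V n (r + 1) = V n r + n.choose r := by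
  simp [V, Finset.sum_range_succ]

lemma V_zero (n : ℕ) : V n 0 = 0 := by simp [V]

lemma V_pascal (n r : ℕ) : V (n + 1) (r + 1) = V n r + V n (r + 1) := by
  induction r with
  | zero => simp [V]
  | succ r ih =>
    rw [V_succ (n + 1) (r + 1), ih, V_succ n (r + 1), Nat.choose_succ_succ, V_succ n r]
    ring

lemma one_le_V (n r : ℕ) : 1 ≤ V n (r + 1) := by
  induction r with
  | zero => simp [V]
  | succ r ih => rw [V_succ]; omega

/-- The real-number core of the inductive step. -/
lemma core {p c0 α β θ a0 a1 N0 N1 : ℝ} (hc0 : 0 ≤ c0) (hα : 0 ≤ α) (hβ : 0 ≤ β) (hαβ : β ≤ α)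
    (h0 : 0 ≤ θ) (h1 : θ ≤ 1) (h10 : a1 ≤ a0)
    (_ht : p + θ * c0 ≤ a1) (hu : a0 ≤ p + c0 + θ * (α * c0))
    (hsum : (p + θ * c0) + (p + c0 + θ * (α * c0)) ≤ a0 + a1)
    (g0a : a0 ≤ p + c0 → p + c0 + α * (a0 - p) ≤ N0)
    (g0b : p + c0 ≤ a0 → p + c0 + α * c0 + β * (a0 - (p + c0)) ≤ N0)
    (g1a : a1 ≤ p + c0 → p + c0 + α * (a1 - p) ≤ N1)
    (g1b : p + c0 ≤ a1 → p + c0 + α * c0 + β * (a1 - (p + c0)) ≤ N1) :
    (p + c0 + θ * (α * c0)) + (p + c0 + α * c0 + θ * (β * (α * c0))) ≤ N0 + N1 := by
  rcases le_total a0 (p + c0) with h | h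
  · have e0 := g0a h
    have e1 := g1a (h10.trans h)
    have k1 : α * ((p + θ * c0) + (p + c0 + θ * (α * c0))) ≤ α * (a0 + a1) :=
      mul_le_mul_of_nonneg_left hsum hα
    have k2 : 0 ≤ θ * (α * c0) * (α - β) := by
      have := sub_nonneg.2 hαβ
      positivity
    nlinarith
  · rcases le_total a1 (p + c0) with h' | h'
    · have e0 := g0b h
      have e1 := g1a h'
      have k1 : p + c0 + θ * (α * c0) - a0 ≤ a1 - (p + θ * c0) := by linarith
      have k2 : 0 ≤ p + c0 + θ * (α * c0) - a0 := by linarith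
      have k3 : β * (p + c0 + θ * (α * c0) - a0) ≤ α * (a1 - (p + θ * c0)) :=
        mul_le_mul hαβ k1 k2 hα
      nlinarith
    · have e0 := g0b h
      have e1 := g1b h'
      have k1 : β * ((p + θ * c0) + (p + c0 + θ * (α * c0))) ≤ β * (a0 + a1) :=
        mul_le_mul_of_nonneg_left hsum hβ
      have k2 : 0 ≤ (1 - θ) * c0 * (α - β) := by
        have := sub_nonneg.2 hαβ
        have := sub_nonneg.2 h1
        positivity
      nlinarith

/-- **The isoperimetric inequality.** -/
theorem isoperimetric (n : ℕ) : ∀ (A : Finset (Fin n → Bool)), A.Nonempty → ∀ (r : ℕ) (θ : ℝ),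
    0 ≤ θ → θ ≤ 1 → (V n r : ℝ) + θ * (n.choose r : ℝ) ≤ (A.card : ℝ) →
    (V n (r + 1) : ℝ) + θ * (n.choose (r + 1) : ℝ) ≤ ((clo A).card : ℝ) := by
  induction n with
  | zero =>
    intro A hA r θ _ _ _
    have h1 : V 0 (r + 1) = 1 := by
      clear * -
      induction r with
      | zero => simp [V]
      | succ r ih => rw [V_succ, ih]; simp
    rw [h1]
    simp only [Nat.choose_zero_succ, Nat.cast_zero, mul_zero, add_zero, Nat.cast_one]
    have h2 : 0 < (clo A).card := Finset.card_pos.2 (hA.mono (subset_clo A))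
    exact_mod_cast h2
  | succ n ih =>
    intro A hA r θ hθ0 hθ1 hA'
    -- choose the larger section
    obtain ⟨s, hs⟩ : ∃ s : Bool, (sec (!s) A).card ≤ (sec s A).card := by
      rcases le_total (sec true A).card (sec false A).card with h | h
      · exact ⟨false, h⟩
      · exact ⟨true, h⟩
    have hcard : (sec s A).card + (sec (!s) A).card = A.card := by
      cases s
      · exact card_sec A
      · rw [add_comm]; exact card_sec A
    have hcardN : (sec s (clo A)).card + (sec (!s) (clo A)).card = (clo A).card := by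
      cases s
      · exact card_sec (clo A)
      · rw [add_comm]; exact card_sec (clo A)
    have hN0 : (clo (sec s A)).card ≤ (sec s (clo A)).card := Finset.card_le_card (clo_sec_subset s A)
    have hN1 : (clo (sec (!s) A)).card ≤ (sec (!s) (clo A)).card :=
      Finset.card_le_card (clo_sec_subset _ A)
    have hN1' : (sec s A).card ≤ (sec (!s) (clo A)).card :=
      Finset.card_le_card (sec_subset_sec_clo (by simp) A)
    have hpos : 0 < A.card := Finset.card_pos.2 hA
    have hne0 : (sec s A).Nonempty := Finset.card_pos.1 (by omega)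
    rcases r with _ | r
    · -- `r = 0`
      have h1 := ih (sec s A) hne0 0 1 zero_le_one le_rfl (by
        rw [V_zero]
        simp only [Nat.cast_zero, Nat.choose_zero_right, Nat.cast_one, mul_one, zero_add]
        exact_mod_cast Finset.card_pos.2 hne0)
      have h2 : 1 ≤ (sec s A).card := Finset.card_pos.2 hne0
      have h3 : (clo (sec s A)).card + (sec s A).card ≤ (clo A).card := by omega
      have h4 : V n 1 = 1 := by simp [V]
      have h5 : V (n + 1) 1 = 1 := by simp [V]
      rw [zero_add, h4] at h1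
      rw [zero_add, h5]
      simp only [Nat.choose_one_right] at h1 ⊢
      have h3' : ((clo (sec s A)).card : ℝ) + ((sec s A).card : ℝ) ≤ ((clo A).card : ℝ) := by
        exact_mod_cast h3
      have h2' : (1 : ℝ) ≤ ((sec s A).card : ℝ) := by exact_mod_cast h2
      push_cast at h1 ⊢
      nlinarith [mul_le_mul_of_nonneg_right hθ1 (by positivity : (0 : ℝ) ≤ (n : ℝ) + 1)]
    · -- `r + 1`
      set a0 : ℝ := ((sec s A).card : ℝ) with ha0
      set a1 : ℝ := ((sec (!s) A).card : ℝ) with ha1
      have hsumA : a0 + a1 = (A.card : ℝ) := by rw [ha0, ha1]; exact_mod_cast hcard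
      have h10 : a1 ≤ a0 := by rw [ha0, ha1]; exact_mod_cast hs
      set p : ℝ := (V n r : ℝ) with hp
      set c0 : ℝ := (n.choose r : ℝ) with hc0
      set c1 : ℝ := (n.choose (r + 1) : ℝ) with hc1
      set c2 : ℝ := (n.choose (r + 2) : ℝ) with hc2
      have hq : (V n (r + 1) : ℝ) = p + c0 := by rw [V_succ]; push_cast; rfl
      have hw : (V n (r + 2) : ℝ) = p + c0 + c1 := by rw [V_succ n (r + 1)]; push_cast; rw [hq]
      have hz : (V n (r + 3) : ℝ) = p + c0 + c1 + c2 := by
        rw [V_succ n (r + 2)]; push_cast; rw [hw]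
      have hV1 : (V (n + 1) (r + 1) : ℝ) = p + (p + c0) := by
        rw [V_pascal]; push_cast; rw [hq]
      have hV2 : (V (n + 1) (r + 1 + 1) : ℝ) = (p + c0) + (p + c0 + c1) := by
        rw [V_pascal]; push_cast; rw [hq, hw]
      have hC1 : ((n + 1).choose (r + 1) : ℝ) = c0 + c1 := by
        rw [Nat.choose_succ_succ]; push_cast; rfl
      have hC2 : ((n + 1).choose (r + 1 + 1) : ℝ) = c1 + c2 := by
        rw [Nat.choose_succ_succ]; push_cast; rfl
      rw [hV1, hC1, ← hsumA] at hA'
      rw [hV2, hC2]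
      have hN : ((sec s (clo A)).card : ℝ) + ((sec (!s) (clo A)).card : ℝ) = ((clo A).card : ℝ) := by
        exact_mod_cast hcardN
      have hc0' : 0 ≤ c0 := Nat.cast_nonneg _
      have hc1' : 0 ≤ c1 := Nat.cast_nonneg _
      have hc2' : 0 ≤ c2 := Nat.cast_nonneg _
      have hp' : 0 ≤ p := Nat.cast_nonneg _
      rcases le_or_gt (p + c0 + θ * c1) a0 with hbig | hsmall
      · -- the large section is large
        have h1 := ih (sec s A) hne0 (r + 1) θ hθ0 hθ1 (by rw [hq]; exact hbig)
        rw [hw] at h1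
        have e0 : ((clo (sec s A)).card : ℝ) ≤ ((sec s (clo A)).card : ℝ) := by exact_mod_cast hN0
        have e1 : a0 ≤ ((sec (!s) (clo A)).card : ℝ) := by rw [ha0]; exact_mod_cast hN1'
        rw [← hN]
        have h1' : p + c0 + c1 + θ * c2 ≤ ((clo (sec s A)).card : ℝ) := h1
        nlinarith
      · have hlt : p + θ * c0 < a1 := by nlinarith
        have ha1pos : 0 < a1 := by
          have : 0 ≤ θ * c0 := by positivity
          linarith
        have hne1 : (sec (!s) A).Nonempty := by
          rw [← Finset.card_pos]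
          have : (0 : ℝ) < ((sec (!s) A).card : ℝ) := ha1pos
          exact_mod_cast this
        -- slopes
        set α : ℝ := ((n - r : ℕ) : ℝ) / ((r : ℝ) + 1) with hα
        set β : ℝ := ((n - (r + 1) : ℕ) : ℝ) / ((r : ℝ) + 2) with hβ
        have e1 : c1 = α * c0 := by
          have h := Nat.choose_succ_right_eq n r
          have h' : c1 * ((r : ℝ) + 1) = c0 * ((n - r : ℕ) : ℝ) := by rw [hc1, hc0]; exact_mod_cast h
          rw [hα]
          field_simp
          linarith
        have e2 : c2 = β * c1 := by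
          have h := Nat.choose_succ_right_eq n (r + 1)
          have h' : c2 * ((r : ℝ) + 2) = c1 * ((n - (r + 1) : ℕ) : ℝ) := by
            have h'' : ((n.choose (r + 1 + 1) : ℕ) : ℝ) * (((r + 1 : ℕ) : ℝ) + 1) =
                ((n.choose (r + 1) : ℕ) : ℝ) * ((n - (r + 1) : ℕ) : ℝ) := by exact_mod_cast h
            have h3 : (((r + 1 : ℕ) : ℝ) + 1) = (r : ℝ) + 2 := by push_cast; ring
            rw [h3] at h''
            exact h''
          rw [hβ]
          field_simp
          linarith
        have hαn : 0 ≤ α := by positivity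
        have hβn : 0 ≤ β := by positivity
        have hαβ : β ≤ α := by
          rw [hα, hβ, div_le_div_iff₀ (by positivity) (by positivity)]
          have h1 : ((n - (r + 1) : ℕ) : ℝ) ≤ ((n - r : ℕ) : ℝ) := by
            exact_mod_cast (by omega : n - (r + 1) ≤ n - r)
          have h2 : (0 : ℝ) ≤ ((n - (r + 1) : ℕ) : ℝ) := Nat.cast_nonneg _
          have h3 : (0 : ℝ) ≤ (r : ℝ) := Nat.cast_nonneg _
          nlinarith
        -- the bounds for the sections
        have gen : ∀ B : Finset (Fin n → Bool), B.Nonempty → p + θ * c0 < (B.card : ℝ) →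
            (B.card : ℝ) < p + c0 + θ * c1 →
            ((B.card : ℝ) ≤ p + c0 → p + c0 + α * ((B.card : ℝ) - p) ≤ ((clo B).card : ℝ)) ∧
            (p + c0 ≤ (B.card : ℝ) →
              p + c0 + α * c0 + β * ((B.card : ℝ) - (p + c0)) ≤ ((clo B).card : ℝ)) := by
          intro B hB hB1 hB2
          constructor
          · intro h
            have hc0pos : 0 < c0 := by
              have : 0 ≤ θ * c0 := by positivity
              linarith
            have h1 := ih B hB r (((B.card : ℝ) - p) / c0) (by
              apply div_nonneg _ hc0'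
              have : 0 ≤ θ * c0 := by positivity
              linarith) (by rw [div_le_one hc0pos]; linarith) (by
              rw [← hp, ← hc0, div_mul_cancel₀ _ hc0pos.ne']; linarith)
            rw [hq, ← hc1, e1] at h1
            have h2 : ((B.card : ℝ) - p) / c0 * (α * c0) = α * ((B.card : ℝ) - p) := by
              field_simp
            rw [h2] at h1
            exact h1
          · intro h
            have hc1pos : 0 < c1 := by
              rcases hc1'.lt_or_eq with h' | h'
              · exact h'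
              · rw [← h'] at hB2; linarith
            have hθc : θ * c1 ≤ c1 := by nlinarith
            have h1 := ih B hB (r + 1) (((B.card : ℝ) - (p + c0)) / c1) (by
              apply div_nonneg _ hc1'
              linarith) (by rw [div_le_one hc1pos]; linarith) (by
              rw [hq, ← hc1, div_mul_cancel₀ _ hc1pos.ne']; linarith)
            have h3 : ((n.choose (r + 1 + 1) : ℕ) : ℝ) = β * c1 := e2
            rw [hw, h3] at h1
            have h2 : ((B.card : ℝ) - (p + c0)) / c1 * (β * c1) = β * ((B.card : ℝ) - (p + c0)) := by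
              field_simp
            rw [h2, e1] at h1
            exact h1
        have hlt0 : p + θ * c0 < a0 := lt_of_lt_of_le hlt h10
        have hsm1 : a1 < p + c0 + θ * c1 := lt_of_le_of_lt h10 hsmall
        obtain ⟨g0a, g0b⟩ := gen (sec s A) hne0 hlt0 hsmall
        obtain ⟨g1a, g1b⟩ := gen (sec (!s) A) hne1 hlt hsm1
        have hfin := core (N0 := ((clo (sec s A)).card : ℝ)) (N1 := ((clo (sec (!s) A)).card : ℝ))
          hc0' hαn hβn hαβ hθ0 hθ1 h10 hlt.le (by rw [← e1]; exact hsmall.le)
          (by rw [← e1]; linarith) g0a g0b g1a g1b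
        rw [← e1, ← e2] at hfin
        have f0 : ((clo (sec s A)).card : ℝ) ≤ ((sec s (clo A)).card : ℝ) := by exact_mod_cast hN0
        have f1 : ((clo (sec (!s) A)).card : ℝ) ≤ ((sec (!s) (clo A)).card : ℝ) := by
          exact_mod_cast hN1
        rw [← hN]
        linarith

end Pool.Agent.Lib.MP_33d9ce_co
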