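import Pool.Agent.Lib.MP_33d9ce_co.Cst.D.Final
import Pool.Agent.Lib.MP_33d9ce_co.Upper

/-!
# Hosts built from an auxiliary graph on the factor
-/

set_option autoImplicit false

noncomputable section

namespace Pool.Agent.Lib.MP_33d9ce_co.Hosts

open Finset Pool.Agent.Lib.MP_33d9ce_co

/-- Dense graphs on `2 ^ m` vertices contain the cube, all `m`. -/
theorem core : ∃ c : ℝ, 0 < c ∧ ∀ (m : ℕ) (B : Type) [Fintype B] (H : SimpleGraph B),
    Fintype.card B = 2 ^ m →
    (∀ b : B, ({b' | b' ≠ b ∧ ¬ H.Adj b b'}.ncard : ℝ) ≤ c * 2 ^ m) → ContainsCube m H := by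
  classical
  obtain ⟨c0, hc0, h0⟩ := Cst.f_thr.2
  refine ⟨c0 / 3, by positivity, fun m B _ H hB hH => ?_⟩
  have hcard : Fintype.card (Fin m → Bool) = Fintype.card B := by
    rw [hB]; simp
  by_cases hsmall : c0 * 2 ^ m < 3
  · -- complete
    have hcomp : ∀ b b' : B, b' ≠ b → H.Adj b b' := by
      intro b b' hne
      by_contra hcon
      have h1 := hH b
      have h2 : ({b' | b' ≠ b ∧ ¬ H.Adj b b'}.ncard : ℝ) < 1 := by
        have : c0 / 3 * 2 ^ m = (c0 * 2 ^ m) / 3 := by ring
        rw [this] at h1
        linarith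
      have h3 : {b' | b' ≠ b ∧ ¬ H.Adj b b'}.ncard = 0 := by
        have : {b' | b' ≠ b ∧ ¬ H.Adj b b'}.ncard < 1 := by exact_mod_cast h2
        omega
      rw [Set.ncard_eq_zero (Set.toFinite _)] at h3
      have h4 : b' ∈ ({b' | b' ≠ b ∧ ¬ H.Adj b b'} : Set B) := ⟨hne, hcon⟩
      rw [h3] at h4
      exact h4
    obtain ⟨e⟩ := Fintype.card_eq.mp hcard
    refine ⟨e, e.injective, fun x y hxy => hcomp _ _ ?_⟩
    intro heq
    have := e.injective heq
    subst this
    exact (hypercube m).loopless.irrefl _ hxy
  · push Not at hsmall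
    have hm : 1 ≤ m ∨ m = 0 := by omega
    rcases hm with hm | hm
    · have hu := h0 m hm
      have hmem := (threshold_isGreatest hm).1
      set u := threshold m with hudef
      have hcardF : Fintype.card (Fin (2 ^ m)) = Fintype.card B := by rw [hB]; simp
      obtain ⟨e⟩ := Fintype.card_eq.mp hcardF
      have hG := hmem.2 (H.comap e) (by
        intro v
        have hsub : (univ : Finset (Fin (2 ^ m))) ⊆
            insert v ((H.comap e).neighborFinset v ∪
              univ.filter fun w => w ≠ v ∧ ¬ (H.comap e).Adj v w) := by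
          intro w _
          by_cases hw : w = v
          · simp [hw]
          · by_cases ha : (H.comap e).Adj v w
            · simp only [mem_insert, mem_union, SimpleGraph.mem_neighborFinset]
              exact Or.inr (Or.inl ha)
            · simp only [mem_insert, mem_union, mem_filter, mem_univ, true_and]
              exact Or.inr (Or.inr ⟨hw, ha⟩)
        have h1 := Finset.card_le_card hsub
        have h2 := Finset.card_insert_le v ((H.comap e).neighborFinset v ∪
              univ.filter fun w => w ≠ v ∧ ¬ (H.comap e).Adj v w)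
        have h3 := Finset.card_union_le ((H.comap e).neighborFinset v)
              (univ.filter fun w => w ≠ v ∧ ¬ (H.comap e).Adj v w)
        rw [SimpleGraph.card_neighborFinset_eq_degree] at h3
        have h4 : (univ.filter fun w => w ≠ v ∧ ¬ (H.comap e).Adj v w).card ≤
            {b' | b' ≠ e v ∧ ¬ H.Adj (e v) b'}.ncard := by
          rw [← Set.ncard_coe_finset]
          refine Set.ncard_le_ncard_of_injOn e ?_ e.injective.injOn (Set.toFinite _)
          intro w hw
          simp only [coe_filter, mem_univ, true_and, Set.mem_ofPred_eq] at hw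
          exact ⟨fun h => hw.1 (e.injective h), hw.2⟩
        have h5 := hH (e v)
        have h6 : (({b' | b' ≠ e v ∧ ¬ H.Adj (e v) b'}.ncard : ℕ) : ℝ) + 1 < (u : ℝ) := by
          have : c0 / 3 * 2 ^ m = (c0 * 2 ^ m) / 3 := by ring
          rw [this] at h5
          linarith
        have h7 : {b' | b' ≠ e v ∧ ¬ H.Adj (e v) b'}.ncard + 1 < u := by exact_mod_cast h6
        simp only [card_univ, Fintype.card_fin] at h1
        omega)
      obtain ⟨f, hf, hadj⟩ := hG
      exact ⟨fun x => e (f x), fun x y h => hf (e.injective h), fun x y hxy => hadj x y hxy⟩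
    · subst hm
      obtain ⟨e⟩ := Fintype.card_eq.mp hcard
      refine ⟨e, e.injective, fun x y hxy => ?_⟩
      obtain ⟨i, _⟩ := hxy
      exact i.elim0

/-- The parity of a string. -/
def par {m : ℕ} (y : Fin m → Bool) : Bool := decide ((∑ i, (y i).toNat) % 2 = 1)

lemma par_flip {m : ℕ} (y y' : Fin m → Bool) (h : (hypercube m).Adj y y') : par y' = !par y := by
  classical
  obtain ⟨i, hi, hu⟩ := h
  have h1 : ∀ j, j ≠ i → y j = y' j := by
    intro j hj
    by_contra hcon
    exact hj (hu j hcon)
  have e1 : ∑ j, (y j).toNat = (y i).toNat + ∑ j ∈ univ.erase i, (y j).toNat :=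
    (Finset.add_sum_erase univ (fun j => (y j).toNat) (mem_univ i)).symm
  have e2 : ∑ j, (y' j).toNat = (y' i).toNat + ∑ j ∈ univ.erase i, (y' j).toNat :=
    (Finset.add_sum_erase univ (fun j => (y' j).toNat) (mem_univ i)).symm
  have e3 : ∑ j ∈ univ.erase i, (y j).toNat = ∑ j ∈ univ.erase i, (y' j).toNat := by
    refine Finset.sum_congr rfl fun j hj => ?_
    rw [h1 j (Finset.ne_of_mem_erase hj)]
  unfold par
  rw [e1, e2, e3]
  generalize ∑ j ∈ univ.erase i, (y' j).toNat = s
  rcases Nat.mod_two_eq_zero_or_one s with hs | hs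
  · cases hy : y i <;> cases hy' : y' i
    · exact absurd (hy.trans hy'.symm) hi
    · simp only [Bool.toNat_true, Bool.toNat_false]
      have a1 : (1 + s) % 2 = 1 := by omega
      have a2 : ¬ (0 + s) % 2 = 1 := by omega
      simp [a1]
      omega
    · simp only [Bool.toNat_true, Bool.toNat_false]
      have a1 : (1 + s) % 2 = 1 := by omega
      have a2 : ¬ (0 + s) % 2 = 1 := by omega
      simp [a1]
      omega
    · exact absurd (hy.trans hy'.symm) hi
  · cases hy : y i <;> cases hy' : y' i
    · exact absurd (hy.trans hy'.symm) hi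
    · simp only [Bool.toNat_true, Bool.toNat_false]
      have a1 : ¬ (1 + s) % 2 = 1 := by omega
      have a2 : (0 + s) % 2 = 1 := by omega
      simp [a1]
      omega
    · simp only [Bool.toNat_true, Bool.toNat_false]
      have a1 : ¬ (1 + s) % 2 = 1 := by omega
      have a2 : (0 + s) % 2 = 1 := by omega
      simp [a1]
      omega
    · exact absurd (hy.trans hy'.symm) hi

/-- The product form. -/
theorem product : ∃ c : ℝ, 0 < c ∧ ∀ (m k : ℕ) (B : Type) [Fintype B]
    (σ : (Fin k → Bool) → (Fin k → Bool)) (G : SimpleGraph (B × (Fin k → Bool))),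
    Fintype.card B = 2 ^ m → (∀ z, σ (σ z) = z) →
    (∀ z z', (hypercube k).Adj z z' → (hypercube k).Adj (σ z) (σ z')) →
    (∀ b z z', (hypercube k).Adj z z' → G.Adj (b, z) (b, z')) →
    (∀ b, (∑ z, ({b' | b' ≠ b ∧ ¬ G.Adj (b, z) (b', σ z)}.ncard : ℝ)) ≤ c * 2 ^ m) →
    ContainsCube (m + k) G := by
  classical
  obtain ⟨c, hc, hcore⟩ := core
  refine ⟨c, hc, fun m k B _ σ G hB hσ hσa hcube hnon => ?_⟩
  let H : SimpleGraph B :=
    { Adj := fun b b' => b ≠ b' ∧ ∀ z, G.Adj (b, z) (b', σ z)
      symm := ⟨fun b b' h => ⟨h.1.symm, fun z => by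
        have h1 := h.2 (σ z)
        rw [hσ] at h1
        exact h1.symm⟩⟩
      loopless := ⟨fun b h => h.1 rfl⟩ }
  have hH := hcore m B H hB (by
    intro b
    have hsub : {b' | b' ≠ b ∧ ¬ H.Adj b b'} ⊆
        ⋃ z ∈ (univ : Finset (Fin k → Bool)),
          {b' | b' ≠ b ∧ ¬ G.Adj (b, z) (b', σ z)} := by
      intro b' hb'
      obtain ⟨h1, h2⟩ := hb'
      have h3 : ¬ ∀ z, G.Adj (b, z) (b', σ z) := fun h => h2 ⟨h1.symm, h⟩
      push Not at h3
      obtain ⟨z, hz⟩ := h3
      simp only [mem_univ, Set.iUnion_true, Set.mem_iUnion, Set.mem_ofPred_eq]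
      exact ⟨z, h1, hz⟩
    have h1 : {b' | b' ≠ b ∧ ¬ H.Adj b b'}.ncard ≤
        ∑ z ∈ (univ : Finset (Fin k → Bool)),
          {b' | b' ≠ b ∧ ¬ G.Adj (b, z) (b', σ z)}.ncard :=
      (Set.ncard_le_ncard hsub (Set.toFinite _)).trans (Finset.set_ncard_biUnion_le _ _)
    have h1' : (({b' | b' ≠ b ∧ ¬ H.Adj b b'}.ncard : ℕ) : ℝ) ≤
        ∑ z ∈ (univ : Finset (Fin k → Bool)),
          ({b' | b' ≠ b ∧ ¬ G.Adj (b, z) (b', σ z)}.ncard : ℝ) := by
      exact_mod_cast h1
    exact h1'.trans (hnon b))
  obtain ⟨f, hf, hadj⟩ := hH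
  refine ⟨fun x => (f (fun i => x (Fin.castAdd k i)),
    if par (fun i => x (Fin.castAdd k i)) then σ (fun j => x (Fin.natAdd m j))
      else fun j => x (Fin.natAdd m j)), ?_, ?_⟩
  · intro x x' h
    simp only [Prod.mk.injEq] at h
    have h1 := hf h.1
    have h2 := h.2
    rw [h1] at h2
    have h3 : (fun j => x (Fin.natAdd m j)) = fun j => x' (Fin.natAdd m j) := by
      by_cases hp : par (fun i => x' (Fin.castAdd k i)) = true
      · rw [if_pos hp, if_pos hp] at h2
        have h4 := congrArg σ h2
        rwa [hσ, hσ] at h4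
      · rw [if_neg hp, if_neg hp] at h2
        exact h2
    funext i
    refine Fin.addCases (fun i => ?_) (fun j => ?_) i
    · exact congrFun h1 i
    · exact congrFun h3 j
  · intro x x' h
    obtain ⟨i, hi, hu⟩ := h
    revert hi hu
    refine Fin.addCases (fun i hi hu => ?_) (fun j hi hu => ?_) i
    · have hy : (hypercube m).Adj (fun i => x (Fin.castAdd k i)) (fun i => x' (Fin.castAdd k i)) :=
        ⟨i, hi, fun j hj => Fin.castAdd_injective m k (hu _ hj)⟩
      have hz : (fun j => x (Fin.natAdd m j)) = fun j => x' (Fin.natAdd m j) := by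
        funext j
        by_contra hcon
        have := hu _ hcon
        have h2 := congrArg Fin.val this
        simp at h2
        omega
      have hp := par_flip _ _ hy
      simp only
      rw [hp, ← hz]
      cases hq : par (fun i => x (Fin.castAdd k i))
      · simp only [Bool.not_false, if_true, Bool.false_eq_true, if_false]
        exact (hadj _ _ hy).2 _
      · simp only [Bool.not_true, if_true, Bool.false_eq_true, if_false]
        have hA := (hadj _ _ hy).2 (σ fun j => x (Fin.natAdd m j))
        rw [hσ] at hA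
        exact hA
    · have hy : (fun i => x (Fin.castAdd k i)) = (fun i => x' (Fin.castAdd k i)) := by
        funext i
        by_contra hcon
        have := hu _ hcon
        have h2 := congrArg Fin.val this
        simp at h2
        omega
      have hz : (hypercube k).Adj (fun j => x (Fin.natAdd m j)) (fun j => x' (Fin.natAdd m j)) :=
        ⟨j, hi, fun j' hj' => Fin.natAdd_injective k m (hu _ hj')⟩
      simp only
      rw [hy]
      by_cases hq : par (fun i => x' (Fin.castAdd k i)) = true
      · rw [if_pos hq, if_pos hq]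
        exact hcube _ _ _ (hσa _ _ hz)
      · rw [if_neg hq, if_neg hq]
        exact hcube _ _ _ hz

/-- Transport: a map from the product which hits the graph. -/
theorem transport {m k : ℕ} {B V : Type} (φ : B × (Fin k → Bool) → V) (hφ : Function.Injective φ)
    (G : SimpleGraph V) (h : ContainsCube (m + k) (G.comap φ)) : ContainsCube (m + k) G := by
  obtain ⟨f, hf, hadj⟩ := h
  exact ⟨fun x => φ (f x), fun x y hxy => hf (hφ hxy), fun x y hxy => hadj x y hxy⟩

/-- Hall's theorem for dense bipartite graphs. -/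
theorem hall {X Y : Type} [Fintype X] [Fintype Y] (T : Finset Y) (R : X → Y → Prop) (N : ℕ)
    (hX : Fintype.card X = N) (hT : T.card = N)
    (h1 : ∀ x, 2 * {y | y ∈ T ∧ ¬ R x y}.ncard ≤ N)
    (h2 : ∀ y ∈ T, 2 * {x | ¬ R x y}.ncard ≤ N) :
    ∃ f : X → Y, Function.Injective f ∧ ∀ x, f x ∈ T ∧ R x (f x) := by
  classical
  let t : X → Finset Y := fun x => T.filter fun y => R x y
  have hHall : ∀ s : Finset X, s.card ≤ (s.biUnion t).card := by
    intro s
    rcases s.eq_empty_or_nonempty with rfl | ⟨a, ha⟩
    · simp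
    · by_cases hbig : N < 2 * s.card
      · have hsub : T ⊆ s.biUnion t := by
          intro y hy
          by_contra hcon
          have hnon : ∀ a ∈ s, ¬ R a y := by
            intro a ha hadj
            apply hcon
            rw [Finset.mem_biUnion]
            exact ⟨a, ha, Finset.mem_filter.mpr ⟨hy, hadj⟩⟩
          have h3 : s.card ≤ {x | ¬ R x y}.ncard := by
            rw [← Set.ncard_coe_finset]
            exact Set.ncard_le_ncard (fun a ha => hnon a (by simpa using ha)) (Set.toFinite _)
          have h4 := h2 y hy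
          omega
        have h3 := Finset.card_le_card hsub
        have h4 : s.card ≤ N := by
          have := Finset.card_le_univ s
          rw [hX] at this
          exact this
        omega
      · have h3 : (t a).card ≤ (s.biUnion t).card :=
          Finset.card_le_card (Finset.subset_biUnion_of_mem t ha)
        have h4 : T ⊆ t a ∪ T.filter fun y => ¬ R a y := by
          intro y hy
          by_cases hR : R a y
          · exact Finset.mem_union_left _ (Finset.mem_filter.mpr ⟨hy, hR⟩)
          · exact Finset.mem_union_right _ (Finset.mem_filter.mpr ⟨hy, hR⟩)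
        have h4' := (Finset.card_le_card h4).trans (Finset.card_union_le _ _)
        have h5 : (T.filter fun y => ¬ R a y).card = {y | y ∈ T ∧ ¬ R a y}.ncard := by
          rw [← Set.ncard_coe_finset]
          congr 1
          ext y
          simp
        have h6 := h1 a
        omega
  obtain ⟨f, hf, hft⟩ := (Finset.all_card_le_biUnion_card_iff_exists_injective t).mp hHall
  exact ⟨f, hf, fun x => Finset.mem_filter.mp (hft x)⟩

lemma sum_bound {ι α : Type} [Finite α] (s : Finset ι) (S : Set α) (F : ι → Set α)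
    (N K : ℕ) (hK : s.card ≤ K)
    (hsub : S ⊆ ⋃ i ∈ s, F i) (h : ∀ i ∈ s, 2 * K * (F i).ncard ≤ N) : 2 * S.ncard ≤ N := by
  classical
  have h1 : S.ncard ≤ ∑ i ∈ s, (F i).ncard :=
    (Set.ncard_le_ncard hsub (Set.toFinite _)).trans (Finset.set_ncard_biUnion_le _ _)
  rcases Nat.eq_zero_or_pos K with hK0 | hK0
  · have h2 : s = ∅ := by
      rw [← Finset.card_eq_zero]
      omega
    rw [h2] at h1
    simp only [Finset.sum_empty] at h1
    omega
  have h2 : 2 * K * ∑ i ∈ s, (F i).ncard ≤ s.card * N := by
    rw [Finset.mul_sum]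
    calc ∑ i ∈ s, 2 * K * (F i).ncard ≤ ∑ i ∈ s, N := Finset.sum_le_sum h
      _ = s.card * N := by simp
  have h3 : K * (2 * S.ncard) ≤ K * N := by
    calc K * (2 * S.ncard) = 2 * K * S.ncard := by ring
      _ ≤ 2 * K * ∑ i ∈ s, (F i).ncard := Nat.mul_le_mul_left _ h1
      _ ≤ s.card * N := h2
      _ ≤ K * N := Nat.mul_le_mul_right _ hK
  exact Nat.le_of_mul_le_mul_left h3 hK0

/-- A vertex of the cube has at most `k` neighbours. -/
lemma card_nb {k : ℕ} (s : Finset (Fin k → Bool)) (z0 : Fin k → Bool)
    [DecidablePred fun z => (hypercube k).Adj z z0] :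
    (s.filter fun z => (hypercube k).Adj z z0).card ≤ k := by
  classical
  have hsub : (s.filter fun z => (hypercube k).Adj z z0) ⊆
      (univ : Finset (Fin k)).image fun i => Function.update z0 i (!z0 i) := by
    intro z hz
    obtain ⟨i, hi, hu⟩ := (Finset.mem_filter.mp hz).2
    refine Finset.mem_image.mpr ⟨i, mem_univ i, ?_⟩
    funext j
    by_cases hj : j = i
    · subst hj
      rw [Function.update_self]
      cases h1 : z j <;> cases h2 : z0 j
      · exact absurd (h1.trans h2.symm) hi
      · rfl
      · rfl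
      · exact absurd (h1.trans h2.symm) hi
    · rw [Function.update_of_ne hj]
      by_contra hcon
      exact hj (hu j fun h => hcon h.symm)
  exact (Finset.card_le_card hsub).trans (Finset.card_image_le.trans (by simp))

/-- The transversal copies of `Q_k` in a dense blow-up. -/
theorem factor {k : ℕ} {V : Type} [Fintype V] (G : SimpleGraph V) (p : V → (Fin k → Bool)) (N : ℕ)
    (hp : ∀ z, {v | p v = z}.ncard = N)
    (h : ∀ v z', (hypercube k).Adj (p v) z' →
      2 * k * {u | u ≠ v ∧ p u = z' ∧ ¬ G.Adj v u}.ncard ≤ N)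
    (s : Finset (Fin k → Bool)) :
    ∃ φ : (Fin k → Bool) → Fin N → V,
      (∀ z ∈ s, Function.Injective (φ z) ∧ ∀ b, p (φ z b) = z) ∧
      ∀ z ∈ s, ∀ z' ∈ s, (hypercube k).Adj z z' → ∀ b, G.Adj (φ z b) (φ z' b) := by
  classical
  have hcard : ∀ z, (univ.filter fun v => p v = z).card = N := by
    intro z
    rw [← hp z, ← Set.ncard_coe_finset]
    congr 1
    ext v
    simp
  induction s using Finset.induction_on with
  | empty =>
    exact ⟨fun z b => ((Finset.equivFinOfCardEq (hcard z)).symm b).val,
      fun z hz => absurd hz (Finset.notMem_empty z), fun z hz => absurd hz (Finset.notMem_empty z)⟩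
  | insert z0 s hz0 ih =>
    obtain ⟨φ, hφ1, hφ2⟩ := ih
    obtain ⟨f, hf1, hf2⟩ := hall (univ.filter fun v => p v = z0)
      (fun (b : Fin N) v => ∀ z ∈ s, (hypercube k).Adj z z0 → G.Adj (φ z b) v) N
      (Fintype.card_fin N) (hcard z0)
      (by
        intro b
        refine sum_bound (s.filter fun z => (hypercube k).Adj z z0) _
          (fun z => {v | v ≠ φ z b ∧ p v = z0 ∧ ¬ G.Adj (φ z b) v}) N k (card_nb s z0) ?_ ?_
        · rintro v ⟨hv1, hv2⟩
          simp only [mem_filter, mem_univ, true_and] at hv1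
          push Not at hv2
          obtain ⟨z, hz1, hz2, hz3⟩ := hv2
          simp only [Set.mem_iUnion]
          refine ⟨z, Finset.mem_filter.mpr ⟨hz1, hz2⟩, ?_, hv1, hz3⟩
          intro heq
          apply hz0
          have := (hφ1 z hz1).2 b
          rw [← heq, hv1] at this
          rw [this]
          exact hz1
        · intro z hz
          obtain ⟨hz1, hz2⟩ := Finset.mem_filter.mp hz
          refine h (φ z b) z0 ?_
          rw [(hφ1 z hz1).2 b]
          exact hz2)
      (by
        intro v hv
        simp only [mem_filter, mem_univ, true_and] at hv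
        refine sum_bound (s.filter fun z => (hypercube k).Adj z z0) _
          (fun z => {b | ¬ G.Adj (φ z b) v}) N k (card_nb s z0) ?_ ?_
        · intro b hb
          change ¬ _ at hb
          push Not at hb
          obtain ⟨z, hz1, hz2, hz3⟩ := hb
          simp only [Set.mem_iUnion]
          exact ⟨z, Finset.mem_filter.mpr ⟨hz1, hz2⟩, hz3⟩
        · intro z hz
          obtain ⟨hz1, hz2⟩ := Finset.mem_filter.mp hz
          have h3 : (hypercube k).Adj (p v) z := by rw [hv]; exact hz2.symm
          refine le_trans (Nat.mul_le_mul_left _ ?_) (h v z h3)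
          refine Set.ncard_le_ncard_of_injOn (φ z) ?_ (hφ1 z hz1).1.injOn (Set.toFinite _)
          intro b hb
          refine ⟨?_, (hφ1 z hz1).2 b, fun hadj => hb hadj.symm⟩
          intro heq
          apply hz0
          have := (hφ1 z hz1).2 b
          rw [heq, hv] at this
          rw [this]
          exact hz1)
    refine ⟨Function.update φ z0 f, ?_, ?_⟩
    · intro z hz
      by_cases hzz : z = z0
      · subst hzz
        rw [Function.update_self]
        refine ⟨hf1, fun b => ?_⟩
        have := (hf2 b).1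
        simpa using this
      · rw [Function.update_of_ne hzz]
        rcases Finset.mem_insert.mp hz with hz | hz
        · exact absurd hz hzz
        · exact hφ1 z hz
    · intro z hz z' hz' hadj b
      by_cases hzz : z = z0
      · by_cases hzz' : z' = z0
        · exfalso
          rw [hzz, hzz'] at hadj
          exact (hypercube k).loopless.irrefl _ hadj
        · rcases Finset.mem_insert.mp hz' with hz' | hz'
          · exact absurd hz' hzz'
          · rw [hzz, Function.update_self, Function.update_of_ne hzz']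
            rw [hzz] at hadj
            exact ((hf2 b).2 z' hz' hadj.symm).symm
      · rcases Finset.mem_insert.mp hz with hz | hz
        · exact absurd hz hzz
        · by_cases hzz' : z' = z0
          · rw [hzz', Function.update_self, Function.update_of_ne hzz]
            rw [hzz'] at hadj
            exact (hf2 b).2 z hz hadj
          · rcases Finset.mem_insert.mp hz' with hz' | hz'
            · exact absurd hz' hzz'
            · rw [Function.update_of_ne hzz, Function.update_of_ne hzz']
              exact hφ2 z hz z' hz' hadj b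

/-- The blow-up form. -/
theorem blowup : ∃ c : ℝ, 0 < c ∧ ∀ (m k : ℕ) (V : Type) [Fintype V] (G : SimpleGraph V)
    (p : V → (Fin k → Bool)) (σ : (Fin k → Bool) → (Fin k → Bool)),
    (∀ z, {v | p v = z}.ncard = 2 ^ m) → (∀ z, σ (σ z) = z) →
    (∀ z z', (hypercube k).Adj z z' → (hypercube k).Adj (σ z) (σ z')) →
    (∀ v z', (hypercube k).Adj (p v) z' →
      2 * k * {u | p u = z' ∧ ¬ G.Adj v u}.ncard ≤ 2 ^ m) →
    (∀ v, ({u | u ≠ v ∧ p u = σ (p v) ∧ ¬ G.Adj v u}.ncard : ℝ) ≤ c * 2 ^ m / 2 ^ k) →
    ContainsCube (m + k) G := by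
  classical
  obtain ⟨c0, hc0, hprod⟩ := product
  refine ⟨c0, hc0, fun m k V _ G p σ hp hσ hσa hnb hnon => ?_⟩
  obtain ⟨φ, hφ1, hφ2⟩ := factor G p (2 ^ m) hp (by
    intro v z' hz'
    refine le_trans (Nat.mul_le_mul_left _ ?_) (hnb v z' hz')
    exact Set.ncard_le_ncard (fun u hu => hu.2) (Set.toFinite _)) univ
  have hinj : Function.Injective (fun q : Fin (2 ^ m) × (Fin k → Bool) => φ q.2 q.1) := by
    rintro ⟨b, z⟩ ⟨b', z'⟩ heq
    simp only at heq
    have h1 : z = z' := by
      rw [← (hφ1 z (mem_univ z)).2 b, ← (hφ1 z' (mem_univ z')).2 b', heq]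
    subst h1
    rw [(hφ1 z (mem_univ z)).1 heq]
  refine transport (fun q : Fin (2 ^ m) × (Fin k → Bool) => φ q.2 q.1) hinj G ?_
  refine hprod m k (Fin (2 ^ m)) σ (G.comap fun q : Fin (2 ^ m) × (Fin k → Bool) => φ q.2 q.1)
    (Fintype.card_fin _) hσ hσa ?_ ?_
  · intro b z z' hz
    exact hφ2 z (mem_univ z) z' (mem_univ z') hz b
  · intro b
    have hone : ∀ z ∈ (univ : Finset (Fin k → Bool)), ({b' | b' ≠ b ∧
        ¬ (G.comap fun q : Fin (2 ^ m) × (Fin k → Bool) => φ q.2 q.1).Adj
        (b, z) (b', σ z)}.ncard : ℝ) ≤ c0 * 2 ^ m / 2 ^ k := by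
      intro z _
      have h1 := hnon (φ z b)
      rw [(hφ1 z (mem_univ z)).2 b] at h1
      have h2 : {b' | b' ≠ b ∧ ¬ (G.comap fun q : Fin (2 ^ m) × (Fin k → Bool) => φ q.2 q.1).Adj
          (b, z) (b', σ z)}.ncard ≤
          {u | u ≠ φ z b ∧ p u = σ z ∧ ¬ G.Adj (φ z b) u}.ncard := by
        refine Set.ncard_le_ncard_of_injOn (φ (σ z)) ?_
          (hφ1 _ (mem_univ _)).1.injOn (Set.toFinite _)
        intro b' hb'
        refine ⟨?_, (hφ1 _ (mem_univ _)).2 b', hb'.2⟩
        intro heq
        have h3 := hinj (a₁ := (b', σ z)) (a₂ := (b, z)) heq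
        exact hb'.1 (congrArg Prod.fst h3)
      refine le_trans ?_ h1
      exact_mod_cast h2
    refine (Finset.sum_le_sum hone).trans (le_of_eq ?_)
    rw [Finset.sum_const, Finset.card_univ]
    simp only [Fintype.card_pi, Fintype.card_bool, prod_const, card_univ, Fintype.card_fin,
      nsmul_eq_mul, Nat.cast_pow, Nat.cast_ofNat]
    have : (2 : ℝ) ^ k ≠ 0 := by positivity
    field_simp

end Pool.Agent.Lib.MP_33d9ce_co.Hosts
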