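import Mathlib

/-!
# Bounded differences inequality on finite product spaces

`McD.mgf`, `McD.tail`, `McD.tail_abs`: product of finite spaces with weights `p i` (nonnegative, sum 1).
`McD.card_tail_abs`: the uniform case, by counting.
-/

set_option autoImplicit false

namespace Pool.Agent.Hc

namespace McD

open Finset

/-- Hoeffding's lemma for a finite weighted space (constant `1/2` instead of `1/8`) -/
theorem hoeff {Ω : Type*} [Fintype Ω] (p g : Ω → ℝ) (hp0 : ∀ a, 0 ≤ p a) (hp1 : ∑ a, p a = 1)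
    (d : ℝ) (hd : ∀ a b, |g a - g b| ≤ d) (l : ℝ) :
    ∑ a, p a * Real.exp (l * (g a - ∑ b, p b * g b)) ≤ Real.exp (l ^ 2 * d ^ 2 / 2) := by
  set m := ∑ b, p b * g b with hm
  have hz : ∀ a, |g a - m| ≤ d := by
    intro a
    have h1 : g a - m = ∑ b, p b * (g a - g b) := by
      simp only [mul_sub, Finset.sum_sub_distrib, ← Finset.sum_mul, hp1, one_mul, hm]
    rw [h1]
    refine (Finset.abs_sum_le_sum_abs _ _).trans ?_
    calc ∑ b, |p b * (g a - g b)| ≤ ∑ b, p b * d := by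
          refine Finset.sum_le_sum fun b _ => ?_
          rw [abs_mul, abs_of_nonneg (hp0 b)]
          exact mul_le_mul_of_nonneg_left (hd a b) (hp0 b)
      _ = d := by rw [← Finset.sum_mul, hp1, one_mul]
  have hz0 : ∑ a, p a * (g a - m) = 0 := by
    simp only [mul_sub, Finset.sum_sub_distrib, ← Finset.sum_mul, hp1, one_mul, hm, sub_self]
  have hne : Nonempty Ω := by
    by_contra h
    rw [not_nonempty_iff] at h
    simp at hp1
  obtain ⟨a0⟩ := hne
  have hd0 : 0 ≤ d := (abs_nonneg _).trans (hd a0 a0)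
  rcases hd0.eq_or_lt with hd' | hd'
  · have : ∀ a, g a - m = 0 := fun a => by
      have := hz a
      rw [← hd'] at this
      exact abs_eq_zero.1 (le_antisymm this (abs_nonneg _))
    simp [this, hp1, ← hd']
  · have key : ∀ a, Real.exp (l * (g a - m)) ≤
        Real.cosh (l * d) + (g a - m) * (Real.sinh (l * d) / d) := by
      intro a
      have h1 := abs_le.1 (hz a)
      obtain ⟨-, hcv⟩ := convexOn_exp
      have hc := @hcv (l * d) (Set.mem_univ _) (-(l * d)) (Set.mem_univ _)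
        ((d + (g a - m)) / (2 * d)) ((d - (g a - m)) / (2 * d))
        (div_nonneg (by linarith) (by linarith)) (div_nonneg (by linarith) (by linarith))
        (by field_simp; ring)
      simp only [smul_eq_mul] at hc
      have e1 : (d + (g a - m)) / (2 * d) * (l * d) + (d - (g a - m)) / (2 * d) * (-(l * d)) =
          l * (g a - m) := by field_simp; ring
      rw [e1] at hc
      refine hc.trans (le_of_eq ?_)
      rw [Real.cosh_eq, Real.sinh_eq]
      field_simp
      ring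
    calc ∑ a, p a * Real.exp (l * (g a - m))
        ≤ ∑ a, p a * (Real.cosh (l * d) + (g a - m) * (Real.sinh (l * d) / d)) :=
          Finset.sum_le_sum fun a _ => mul_le_mul_of_nonneg_left (key a) (hp0 a)
      _ = Real.cosh (l * d) := by
          have : ∀ a, p a * (Real.cosh (l * d) + (g a - m) * (Real.sinh (l * d) / d)) =
              p a * Real.cosh (l * d) + p a * (g a - m) * (Real.sinh (l * d) / d) :=
            fun a => by ring
          rw [Finset.sum_congr rfl fun a _ => this a, Finset.sum_add_distrib, ← Finset.sum_mul,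
            ← Finset.sum_mul, hz0, hp1]
          ring
      _ ≤ Real.exp ((l * d) ^ 2 / 2) := Real.cosh_le_exp_half_sq _
      _ = Real.exp (l ^ 2 * d ^ 2 / 2) := by rw [mul_pow]

theorem wt_nonneg {ι : Type*} [Fintype ι] {Ω : ι → Type*} (p : ∀ i, Ω i → ℝ)
    (hp0 : ∀ i a, 0 ≤ p i a) (ω : ∀ i, Ω i) : 0 ≤ ∏ i, p i (ω i) :=
  Finset.prod_nonneg fun i _ => hp0 i _

theorem wt_sum {ι : Type*} [Fintype ι] [DecidableEq ι] {Ω : ι → Type*} [∀ i, Fintype (Ω i)]
    (p : ∀ i, Ω i → ℝ) (hp1 : ∀ i, ∑ a, p i a = 1) : ∑ ω : (∀ i, Ω i), ∏ i, p i (ω i) = 1 := by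
  rw [← Fintype.prod_sum]
  simp [hp1]

/-- the bounded differences inequality over `Fin n` -/
theorem mgf_fin : ∀ (n : ℕ) {Ω : Fin n → Type*} [∀ i, Fintype (Ω i)] (p : ∀ i, Ω i → ℝ)
    (_ : ∀ i a, 0 ≤ p i a) (_ : ∀ i, ∑ a, p i a = 1) (F : (∀ i, Ω i) → ℝ) (d : Fin n → ℝ)
    (_ : ∀ i ω a, |F (Function.update ω i a) - F ω| ≤ d i) (l : ℝ),
    ∑ ω, (∏ i, p i (ω i)) * Real.exp (l * (F ω - ∑ ω', (∏ i, p i (ω' i)) * F ω')) ≤
      Real.exp (l ^ 2 * (∑ i, d i ^ 2) / 2) := by
  intro n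
  induction n with
  | zero =>
    intro Ω _ p hp0 hp1 F d hd l
    simp
  | succ n ih =>
    intro Ω _ p hp0 hp1 F d hd l
    have split : ∀ f : (∀ i, Ω i) → ℝ, ∑ ω, f ω =
        ∑ a : Ω 0, ∑ ω' : (∀ i : Fin n, Ω i.succ), f (Fin.cons a ω') := by
      intro f
      rw [← (Fin.consEquiv Ω).sum_comp, Fintype.sum_prod_type]
      rfl
    set G : Ω 0 → ℝ := fun a =>
      ∑ ω' : (∀ i : Fin n, Ω i.succ), (∏ i, p i.succ (ω' i)) * F (Fin.cons a ω') with hG
    have hw1 : ∑ ω' : (∀ i : Fin n, Ω i.succ), ∏ i, p i.succ (ω' i) = 1 :=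
      wt_sum (fun i : Fin n => p i.succ) (fun i => hp1 _)
    have hEF : ∑ ω', (∏ i, p i (ω' i)) * F ω' = ∑ a, p 0 a * G a := by
      rw [split]
      refine Finset.sum_congr rfl fun a _ => ?_
      rw [hG, Finset.mul_sum]
      refine Finset.sum_congr rfl fun ω' _ => ?_
      rw [Fin.prod_univ_succ]
      simp [mul_assoc]
    have hGd : ∀ a b, |G a - G b| ≤ d 0 := by
      intro a b
      simp only [hG, ← Finset.sum_sub_distrib, ← mul_sub]
      refine (Finset.abs_sum_le_sum_abs _ _).trans ?_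
      calc _ ≤ ∑ ω' : (∀ i : Fin n, Ω i.succ), (∏ i, p i.succ (ω' i)) * d 0 := by
            refine Finset.sum_le_sum fun ω' _ => ?_
            rw [abs_mul, abs_of_nonneg (wt_nonneg (fun i : Fin n => p i.succ)
              (fun i a => hp0 _ a) ω')]
            refine mul_le_mul_of_nonneg_left ?_ (wt_nonneg (fun i : Fin n => p i.succ)
              (fun i a => hp0 _ a) ω')
            have := hd 0 (Fin.cons b ω') a
            rwa [Fin.update_cons_zero] at this
        _ = d 0 := by rw [← Finset.sum_mul, hw1, one_mul]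
    have hih : ∀ a, ∑ ω' : (∀ i : Fin n, Ω i.succ), (∏ i, p i.succ (ω' i)) *
        Real.exp (l * (F (Fin.cons a ω') - G a)) ≤
        Real.exp (l ^ 2 * (∑ i : Fin n, d i.succ ^ 2) / 2) := by
      intro a
      refine ih (fun i : Fin n => p i.succ) (fun i b => hp0 _ b) (fun i => hp1 _)
        (fun ω' => F (Fin.cons a ω')) (fun i => d i.succ) ?_ l
      intro i ω' b
      have := hd i.succ (Fin.cons a ω') b
      rwa [← Fin.cons_update] at this
    rw [hEF, split]
    calc ∑ a, ∑ ω' : (∀ i : Fin n, Ω i.succ), (∏ i, p i ((Fin.cons a ω' : ∀ i, Ω i) i)) *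
          Real.exp (l * (F (Fin.cons a ω') - ∑ a, p 0 a * G a))
        = ∑ a, (p 0 a * Real.exp (l * (G a - ∑ a, p 0 a * G a))) *
          ∑ ω' : (∀ i : Fin n, Ω i.succ), (∏ i, p i.succ (ω' i)) *
            Real.exp (l * (F (Fin.cons a ω') - G a)) := by
          refine Finset.sum_congr rfl fun a _ => ?_
          rw [Finset.mul_sum]
          refine Finset.sum_congr rfl fun ω' _ => ?_
          rw [Fin.prod_univ_succ]
          have : l * (F (Fin.cons a ω') - ∑ a, p 0 a * G a) =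
              l * (G a - ∑ a, p 0 a * G a) + l * (F (Fin.cons a ω') - G a) := by ring
          rw [this, Real.exp_add]
          simp only [Fin.cons_zero, Fin.cons_succ]
          ring
      _ ≤ ∑ a, (p 0 a * Real.exp (l * (G a - ∑ a, p 0 a * G a))) *
          Real.exp (l ^ 2 * (∑ i : Fin n, d i.succ ^ 2) / 2) := by
          refine Finset.sum_le_sum fun a _ => mul_le_mul_of_nonneg_left (hih a) ?_
          exact mul_nonneg (hp0 _ _) (Real.exp_pos _).le
      _ ≤ Real.exp (l ^ 2 * d 0 ^ 2 / 2) *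
          Real.exp (l ^ 2 * (∑ i : Fin n, d i.succ ^ 2) / 2) := by
          rw [← Finset.sum_mul]
          exact mul_le_mul_of_nonneg_right (hoeff (p 0) G (hp0 0) (hp1 0) (d 0) hGd l)
            (Real.exp_pos _).le
      _ = Real.exp (l ^ 2 * (∑ i, d i ^ 2) / 2) := by
          rw [← Real.exp_add, Fin.sum_univ_succ]
          congr 1
          ring

/-- **bounded differences inequality**, moment generating function -/
theorem mgf {ι : Type*} [Fintype ι] [DecidableEq ι] {Ω : ι → Type*} [∀ i, Fintype (Ω i)]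
    (p : ∀ i, Ω i → ℝ) (hp0 : ∀ i a, 0 ≤ p i a) (hp1 : ∀ i, ∑ a, p i a = 1)
    (F : (∀ i, Ω i) → ℝ) (d : ι → ℝ) (hd : ∀ i ω a, |F (Function.update ω i a) - F ω| ≤ d i)
    (l : ℝ) :
    ∑ ω, (∏ i, p i (ω i)) * Real.exp (l * (F ω - ∑ ω', (∏ i, p i (ω' i)) * F ω')) ≤
      Real.exp (l ^ 2 * (∑ i, d i ^ 2) / 2) := by
  set e := (Fintype.equivFin ι).symm with he
  have hu : ∀ (ω : ∀ a, Ω (e a)) i (a : Ω (e i)),
      Equiv.piCongrLeft Ω e (Function.update ω i a) =
        Function.update (Equiv.piCongrLeft Ω e ω) (e i) a := by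
    intro ω i a
    funext b
    obtain ⟨j, rfl⟩ := e.surjective b
    rw [Equiv.piCongrLeft_apply_apply]
    by_cases h : j = i
    · subst h
      simp
    · rw [Function.update_of_ne h, Function.update_of_ne (fun h' => h (e.injective h')),
        Equiv.piCongrLeft_apply_apply]
  have hs : ∀ f : (∀ i, Ω i) → ℝ, ∑ ω, (∏ i, p i (ω i)) * f ω =
      ∑ ω : (∀ a, Ω (e a)), (∏ a, p (e a) (ω a)) * f (Equiv.piCongrLeft Ω e ω) := by
    intro f
    rw [← (Equiv.piCongrLeft Ω e).sum_comp]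
    refine Finset.sum_congr rfl fun ω _ => ?_
    congr 1
    rw [← e.prod_comp]
    exact Finset.prod_congr rfl fun a _ => by rw [Equiv.piCongrLeft_apply_apply]
  rw [hs, hs]
  have := mgf_fin (Fintype.card ι) (Ω := fun a => Ω (e a)) (fun a => p (e a))
    (fun a => hp0 _) (fun a => hp1 _) (fun ω => F (Equiv.piCongrLeft Ω e ω)) (fun a => d (e a))
    (fun i ω a => by rw [hu]; exact hd _ _ _) l
  rw [← e.sum_comp]
  exact this

/-- one-sided tail -/
theorem tail {ι : Type*} [Fintype ι] [DecidableEq ι] {Ω : ι → Type*} [∀ i, Fintype (Ω i)]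
    (p : ∀ i, Ω i → ℝ) (hp0 : ∀ i a, 0 ≤ p i a) (hp1 : ∀ i, ∑ a, p i a = 1)
    (F : (∀ i, Ω i) → ℝ) (d : ι → ℝ) (hd : ∀ i ω a, |F (Function.update ω i a) - F ω| ≤ d i)
    {D t : ℝ} (hD : 0 < D) (hdD : ∑ i, d i ^ 2 ≤ D) (ht : 0 ≤ t) :
    ∑ ω with t ≤ F ω - ∑ ω', (∏ i, p i (ω' i)) * F ω', ∏ i, p i (ω i) ≤
      Real.exp (-t ^ 2 / (2 * D)) := by
  set m := ∑ ω', (∏ i, p i (ω' i)) * F ω' with hm
  set l := t / D with hl
  have hl0 : 0 ≤ l := div_nonneg ht hD.le
  have h1 : ∑ ω with t ≤ F ω - m, ∏ i, p i (ω i) ≤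
      ∑ ω, (∏ i, p i (ω i)) * Real.exp (l * (F ω - m)) * Real.exp (-(l * t)) := by
    rw [Finset.sum_filter]
    refine Finset.sum_le_sum fun ω _ => ?_
    have hw := wt_nonneg p hp0 ω
    split_ifs with h
    · rw [mul_assoc, ← Real.exp_add]
      refine le_mul_of_one_le_right hw (Real.one_le_exp ?_)
      have := mul_le_mul_of_nonneg_left h hl0
      linarith
    · exact mul_nonneg (mul_nonneg hw (Real.exp_pos _).le) (Real.exp_pos _).le
  refine h1.trans ?_
  rw [← Finset.sum_mul]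
  refine (mul_le_mul_of_nonneg_right (mgf p hp0 hp1 F d hd l) (Real.exp_pos _).le).trans ?_
  rw [← Real.exp_add]
  refine Real.exp_le_exp.2 ?_
  have h2 : l ^ 2 * (∑ i, d i ^ 2) / 2 ≤ l ^ 2 * D / 2 := by
    have := mul_le_mul_of_nonneg_left hdD (sq_nonneg l)
    linarith
  refine (add_le_add_left h2 _).trans (le_of_eq ?_)
  rw [hl]
  field_simp
  ring

/-- two-sided tail -/
theorem tail_abs {ι : Type*} [Fintype ι] [DecidableEq ι] {Ω : ι → Type*} [∀ i, Fintype (Ω i)]
    (p : ∀ i, Ω i → ℝ) (hp0 : ∀ i a, 0 ≤ p i a) (hp1 : ∀ i, ∑ a, p i a = 1)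
    (F : (∀ i, Ω i) → ℝ) (d : ι → ℝ) (hd : ∀ i ω a, |F (Function.update ω i a) - F ω| ≤ d i)
    {D t : ℝ} (hD : 0 < D) (hdD : ∑ i, d i ^ 2 ≤ D) (ht : 0 ≤ t) :
    ∑ ω with t ≤ |F ω - ∑ ω', (∏ i, p i (ω' i)) * F ω'|, ∏ i, p i (ω i) ≤
      2 * Real.exp (-t ^ 2 / (2 * D)) := by
  have h1 := tail p hp0 hp1 F d hd hD hdD ht
  have h2 := tail p hp0 hp1 (fun ω => - F ω) d
    (fun i ω a => by
      have := hd i ω a
      rwa [neg_sub_neg, abs_sub_comm]) hD hdD ht
  have e : ∑ ω', (∏ i, p i (ω' i)) * -F ω' = -∑ ω', (∏ i, p i (ω' i)) * F ω' := by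
    simp [Finset.sum_neg_distrib]
  rw [e] at h2
  set m := ∑ ω', (∏ i, p i (ω' i)) * F ω' with hm
  rw [two_mul]
  refine le_trans ?_ (add_le_add h1 h2)
  rw [Finset.sum_filter, Finset.sum_filter, Finset.sum_filter, ← Finset.sum_add_distrib]
  refine Finset.sum_le_sum fun ω _ => ?_
  have hw := wt_nonneg p hp0 ω
  by_cases h : t ≤ |F ω - m|
  · rw [if_pos h]
    rcases le_abs.1 h with h | h
    · rw [if_pos h]
      split_ifs <;> linarith
    · have h' : t ≤ -F ω - -m := by linarith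
      rw [if_pos h']
      split_ifs <;> linarith
  · rw [if_neg h]
    split_ifs <;> linarith

/-- uniform case, by counting -/
theorem card_tail_abs {ι : Type*} [Fintype ι] [DecidableEq ι] {Ω : ι → Type*}
    [∀ i, Fintype (Ω i)] [∀ i, Nonempty (Ω i)]
    (F : (∀ i, Ω i) → ℝ) (d : ι → ℝ) (hd : ∀ i ω a, |F (Function.update ω i a) - F ω| ≤ d i)
    {D t : ℝ} (hD : 0 < D) (hdD : ∑ i, d i ^ 2 ≤ D) (ht : 0 ≤ t) :
    (((Finset.univ.filter fun ω => t ≤ |F ω - (∑ ω', F ω') / Fintype.card (∀ i, Ω i)|).card : ℕ) : ℝ)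
      ≤ 2 * Real.exp (-t ^ 2 / (2 * D)) * Fintype.card (∀ i, Ω i) := by
  have hc : ∀ i, (0 : ℝ) < Fintype.card (Ω i) := fun i => by exact_mod_cast Fintype.card_pos
  have hC : (Fintype.card (∀ i, Ω i) : ℝ) = ∏ i, (Fintype.card (Ω i) : ℝ) := by
    rw [Fintype.card_pi]; push_cast; rfl
  have hC0 : (0 : ℝ) < Fintype.card (∀ i, Ω i) := by
    rw [hC]; exact Finset.prod_pos fun i _ => hc i
  have h := tail_abs (fun i (_ : Ω i) => ((Fintype.card (Ω i) : ℝ))⁻¹)
    (fun i _ => inv_nonneg.2 (hc i).le) (fun i => by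
      rw [Finset.sum_const, Finset.card_univ, nsmul_eq_mul, mul_inv_cancel₀ (hc i).ne']) F d hd
    hD hdD ht
  have hprod : (∏ i, ((Fintype.card (Ω i) : ℝ))⁻¹) = ((Fintype.card (∀ i, Ω i) : ℝ))⁻¹ := by
    rw [hC, Finset.prod_inv_distrib]
  simp only [hprod] at h
  rw [← Finset.mul_sum, Finset.sum_const, nsmul_eq_mul, inv_mul_eq_div] at h
  rw [← div_eq_mul_inv, div_le_iff₀ hC0] at h
  exact h

end McD

end Pool.Agent.Hc
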