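import Pool.Agent.Lib.MP_33d9ce_co.Hosts

/-!
# Edge-disjoint copies of the cube in dense blow-ups
-/

set_option autoImplicit false

noncomputable section

namespace Pool.Agent.Lib.MP_33d9ce_co

/-- `G` contains `t` pairwise edge-disjoint copies of `Q_n`. -/
def Packs (n t : ℕ) {V : Type} (G : SimpleGraph V) : Prop :=
  ∃ f : Fin t → (Fin n → Bool) → V,
    (∀ i, Function.Injective (f i) ∧ ∀ x y, (hypercube n).Adj x y → G.Adj (f i x) (f i y)) ∧
    ∀ i j, i ≠ j → ∀ x y x' y', (hypercube n).Adj x y → (hypercube n).Adj x' y' →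
      s(f i x, f i y) ≠ s(f j x', f j y')

end Pool.Agent.Lib.MP_33d9ce_co

namespace Pool.Agent.Lib.MP_33d9ce_co.Packing

open Finset Pool.Agent.Lib.MP_33d9ce_co

/-- The edges used by a family of maps. -/
def used {n t : ℕ} {V : Type} (f : Fin t → (Fin n → Bool) → V) : Set (Sym2 V) :=
  {e | ∃ i x y, (hypercube n).Adj x y ∧ e = s(f i x, f i y)}

lemma used_one {n : ℕ} {V : Type} [Finite V] (f : (Fin n → Bool) → V)
    (hf : Function.Injective f) (v : V) :
    {u | ∃ x y, (hypercube n).Adj x y ∧ s(v, u) = s(f x, f y)}.ncard ≤ n := by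
  classical
  by_cases h : ∃ x0, f x0 = v
  · obtain ⟨x0, rfl⟩ := h
    have hsub : {u | ∃ x y, (hypercube n).Adj x y ∧ s(f x0, u) = s(f x, f y)} ⊆
        f '' ((univ.filter fun z => (hypercube n).Adj z x0 : Finset (Fin n → Bool)) :
          Set (Fin n → Bool)) := by
      rintro u ⟨x, y, hxy, he⟩
      rw [Sym2.eq_iff] at he
      rcases he with ⟨h1, h2⟩ | ⟨h1, h2⟩
      · have := hf h1
        subst this
        exact ⟨y, by simpa using hxy.symm, h2.symm⟩
      · have := hf h1
        subst this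
        exact ⟨x, by simpa using hxy, h2.symm⟩
    refine (Set.ncard_le_ncard hsub (Set.toFinite _)).trans ?_
    refine (Set.ncard_image_le (Set.toFinite _)).trans ?_
    rw [Set.ncard_coe_finset]
    exact Hosts.card_nb univ x0
  · have hempty : {u | ∃ x y, (hypercube n).Adj x y ∧ s(v, u) = s(f x, f y)} = ∅ := by
      rw [Set.eq_empty_iff_forall_notMem]
      rintro u ⟨x, y, hxy, he⟩
      rw [Sym2.eq_iff] at he
      rcases he with ⟨h1, h2⟩ | ⟨h1, h2⟩
      · exact h ⟨x, h1.symm⟩
      · exact h ⟨y, h1.symm⟩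
    rw [hempty]
    simp

lemma used_card {n t : ℕ} {V : Type} [Finite V] (f : Fin t → (Fin n → Bool) → V)
    (hf : ∀ i, Function.Injective (f i)) (v : V) :
    {u | s(v, u) ∈ used f}.ncard ≤ t * n := by
  classical
  have hsub : {u | s(v, u) ∈ used f} ⊆
      ⋃ i ∈ (univ : Finset (Fin t)), {u | ∃ x y, (hypercube n).Adj x y ∧
        s(v, u) = s(f i x, f i y)} := by
    rintro u ⟨i, x, y, hxy, he⟩
    simp only [Set.mem_iUnion]
    exact ⟨i, mem_univ i, x, y, hxy, he⟩
  refine (Set.ncard_le_ncard hsub (Set.toFinite _)).trans ?_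
  refine (Finset.set_ncard_biUnion_le _ _).trans ?_
  refine (Finset.sum_le_sum fun i _ => used_one (f i) (hf i) v).trans ?_
  simp

theorem packing : ∃ c : ℝ, 0 < c ∧ ∀ (m k t : ℕ) (V : Type) [Fintype V] (G : SimpleGraph V)
    (p : V → (Fin k → Bool)) (σ : (Fin k → Bool) → (Fin k → Bool)),
    (∀ z, {v | p v = z}.ncard = 2 ^ m) → (∀ z, σ (σ z) = z) →
    (∀ z z', (hypercube k).Adj z z' → (hypercube k).Adj (σ z) (σ z')) →
    (∀ v z', (hypercube k).Adj (p v) z' →
      2 * k * ({u | p u = z' ∧ ¬ G.Adj v u}.ncard + t * (m + k)) ≤ 2 ^ m) →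
    (∀ v, ({u | u ≠ v ∧ p u = σ (p v) ∧ ¬ G.Adj v u}.ncard : ℝ) + t * (m + k) ≤
      c * 2 ^ m / 2 ^ k) →
    Packs (m + k) (t + 1) G := by
  classical
  obtain ⟨c, hc, hblow⟩ := Hosts.blowup
  refine ⟨c, hc, fun m k t V _ G p σ hp hσ hσa hnb hnon => ?_⟩
  have key : ∀ s, s ≤ t + 1 → Packs (m + k) s G := by
    intro s
    induction s with
    | zero =>
      intro _
      exact ⟨fun i => i.elim0, fun i => i.elim0, fun i => i.elim0⟩
    | succ s ih =>
      intro hs
      obtain ⟨f, hf1, hf2⟩ := ih (by omega)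
      have hst : s ≤ t := by omega
      set G' := G.deleteEdges (used f) with hG'
      have hadj : ∀ a b, G'.Adj a b ↔ G.Adj a b ∧ s(a, b) ∉ used f := by
        intro a b
        rw [hG', SimpleGraph.deleteEdges_adj]
      have hcube : ContainsCube (m + k) G' := by
        refine hblow m k V G' p σ hp hσ hσa ?_ ?_
        · intro v z' hz'
          have h1 : {u | p u = z' ∧ ¬ G'.Adj v u} ⊆
              {u | p u = z' ∧ ¬ G.Adj v u} ∪ {u | s(v, u) ∈ used f} := by
            rintro u ⟨h1, h2⟩
            by_cases h3 : G.Adj v u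
            · right
              by_contra h4
              exact h2 ((hadj v u).2 ⟨h3, h4⟩)
            · left
              exact ⟨h1, h3⟩
          have h2 := (Set.ncard_le_ncard h1 (Set.toFinite _)).trans (Set.ncard_union_le _ _)
          have h3 := used_card f (fun i => (hf1 i).1) v
          have h4 : s * (m + k) ≤ t * (m + k) := Nat.mul_le_mul_right _ hst
          refine le_trans (Nat.mul_le_mul_left _ ?_) (hnb v z' hz')
          omega
        · intro v
          have h1 : {u | u ≠ v ∧ p u = σ (p v) ∧ ¬ G'.Adj v u} ⊆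
              {u | u ≠ v ∧ p u = σ (p v) ∧ ¬ G.Adj v u} ∪ {u | s(v, u) ∈ used f} := by
            rintro u ⟨h0, h1, h2⟩
            by_cases h3 : G.Adj v u
            · right
              by_contra h4
              exact h2 ((hadj v u).2 ⟨h3, h4⟩)
            · left
              exact ⟨h0, h1, h3⟩
          have h2 := (Set.ncard_le_ncard h1 (Set.toFinite _)).trans (Set.ncard_union_le _ _)
          have h3 := used_card f (fun i => (hf1 i).1) v
          have h4 : s * (m + k) ≤ t * (m + k) := Nat.mul_le_mul_right _ hst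
          have h5 : {u | u ≠ v ∧ p u = σ (p v) ∧ ¬ G'.Adj v u}.ncard ≤
              {u | u ≠ v ∧ p u = σ (p v) ∧ ¬ G.Adj v u}.ncard + t * (m + k) := by omega
          have h6 : ({u | u ≠ v ∧ p u = σ (p v) ∧ ¬ G'.Adj v u}.ncard : ℝ) ≤
              ({u | u ≠ v ∧ p u = σ (p v) ∧ ¬ G.Adj v u}.ncard : ℝ) + t * (m + k) := by
            exact_mod_cast h5
          exact h6.trans (hnon v)
      obtain ⟨g, hg1, hg2⟩ := hcube
      refine ⟨Fin.cons g f, ?_, ?_⟩
      · intro i
        refine Fin.cases ?_ (fun i => ?_) i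
        · exact ⟨hg1, fun x y h => ((hadj _ _).1 (hg2 x y h)).1⟩
        · exact hf1 i
      · intro i j
        refine Fin.cases ?_ (fun i => ?_) i
        · refine Fin.cases ?_ (fun j => ?_) j
          · intro h
            exact absurd rfl h
          · intro _ x y x' y' h h' he
            exact ((hadj _ _).1 (hg2 x y h)).2 ⟨j, x', y', h', he⟩
        · refine Fin.cases ?_ (fun j => ?_) j
          · intro _ x y x' y' h h' he
            exact ((hadj _ _).1 (hg2 x' y' h')).2 ⟨i, x, y, h, he.symm⟩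
          · intro hij x y x' y' h h'
            exact hf2 i j (fun h => hij (by rw [h])) x y x' y' h h'
  exact key (t + 1) le_rfl

end Pool.Agent.Lib.MP_33d9ce_co.Packing
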