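import Pool.Agent.Lib.MP_33d9ce_co.Packing

/-!
# Edge-disjoint copies of the cube from edge-disjoint systems of fibres
-/

set_option autoImplicit false

noncomputable section

namespace Pool.Agent.Lib.MP_33d9ce_co.PackingProduct

open Finset Pool.Agent.Lib.MP_33d9ce_co Pool.Agent.Lib.MP_33d9ce_co.Packing

/-- The edges of the copies of `Q_k` on the fibres of a system. -/
def fib {k : ℕ} {B V : Type} (φ : B × (Fin k → Bool) → V) : Set (Sym2 V) :=
  {e | ∃ b z z', (hypercube k).Adj z z' ∧ e = s(φ (b, z), φ (b, z'))}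

lemma fib_card {k : ℕ} {B V : Type} [Finite V] (φ : B × (Fin k → Bool) → V)
    (hφ : Function.Injective φ) (v : V) : {u | s(v, u) ∈ fib φ}.ncard ≤ k := by
  classical
  by_cases h : ∃ q, φ q = v
  · obtain ⟨⟨b0, z0⟩, rfl⟩ := h
    have hsub : {u | s(φ (b0, z0), u) ∈ fib φ} ⊆
        (fun z => φ (b0, z)) '' ((univ.filter fun z => (hypercube k).Adj z z0 :
          Finset (Fin k → Bool)) : Set (Fin k → Bool)) := by
      rintro u ⟨b, z, z', hzz, he⟩
      rw [Sym2.eq_iff] at he
      rcases he with ⟨h1, h2⟩ | ⟨h1, h2⟩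
      · have h3 := hφ h1
        simp only [Prod.mk.injEq] at h3
        obtain ⟨rfl, rfl⟩ := h3
        exact ⟨z', by simpa using hzz.symm, h2.symm⟩
      · have h3 := hφ h1
        simp only [Prod.mk.injEq] at h3
        obtain ⟨rfl, rfl⟩ := h3
        exact ⟨z, by simpa using hzz, h2.symm⟩
    refine (Set.ncard_le_ncard hsub (Set.toFinite _)).trans ?_
    refine (Set.ncard_image_le (Set.toFinite _)).trans ?_
    rw [Set.ncard_coe_finset]
    exact Hosts.card_nb univ z0
  · have hempty : {u | s(v, u) ∈ fib φ} = ∅ := by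
      rw [Set.eq_empty_iff_forall_notMem]
      rintro u ⟨b, z, z', hzz, he⟩
      rw [Sym2.eq_iff] at he
      rcases he with ⟨h1, h2⟩ | ⟨h1, h2⟩
      · exact h ⟨_, h1.symm⟩
      · exact h ⟨_, h1.symm⟩
    rw [hempty]
    simp

lemma fib_card_all {k t : ℕ} {B V : Type} [Finite V] (φ : Fin (t + 1) → B × (Fin k → Bool) → V)
    (hφ : ∀ j, Function.Injective (φ j)) (j0 : Fin (t + 1)) (v : V) :
    {u | ∃ j, j ≠ j0 ∧ s(v, u) ∈ fib (φ j)}.ncard ≤ t * k := by
  classical
  have hsub : {u | ∃ j, j ≠ j0 ∧ s(v, u) ∈ fib (φ j)} ⊆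
      ⋃ j ∈ (univ.erase j0 : Finset (Fin (t + 1))), {u | s(v, u) ∈ fib (φ j)} := by
    rintro u ⟨j, hj, he⟩
    simp only [Set.mem_iUnion]
    exact ⟨j, Finset.mem_erase.mpr ⟨hj, mem_univ j⟩, he⟩
  refine (Set.ncard_le_ncard hsub (Set.toFinite _)).trans ?_
  refine (Finset.set_ncard_biUnion_le _ _).trans ?_
  refine (Finset.sum_le_sum fun j _ => fib_card (φ j) (hφ j) v).trans ?_
  rw [Finset.sum_const, Finset.card_erase_of_mem (mem_univ j0)]
  simp

theorem packing : ∃ c : ℝ, 0 < c ∧ ∀ (m k t : ℕ) (B V : Type) [Fintype B] [Fintype V]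
    (σ : (Fin k → Bool) → (Fin k → Bool)) (G : SimpleGraph V)
    (φ : Fin (t + 1) → B × (Fin k → Bool) → V),
    Fintype.card B = 2 ^ m → (∀ z, σ (σ z) = z) →
    (∀ z z', (hypercube k).Adj z z' → (hypercube k).Adj (σ z) (σ z')) →
    (∀ j, Function.Injective (φ j)) →
    (∀ j b z z', (hypercube k).Adj z z' → G.Adj (φ j (b, z)) (φ j (b, z'))) →
    (∀ i j, i ≠ j → ∀ b z z' b' y y', (hypercube k).Adj z z' → (hypercube k).Adj y y' →
      s(φ i (b, z), φ i (b, z')) ≠ s(φ j (b', y), φ j (b', y'))) →
    (∀ j b, (∑ z, ({b' | b' ≠ b ∧ ¬ G.Adj (φ j (b, z)) (φ j (b', σ z))}.ncard : ℝ)) +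
      2 ^ k * (t * (m + 2 * k)) ≤ c * 2 ^ m) →
    Packs (m + k) (t + 1) G := by
  classical
  obtain ⟨c, hc, hprod⟩ := Hosts.product
  refine ⟨c, hc, fun m k t B V _ _ σ G φ hB hσ hσa hφ hfib hdis hnon => ?_⟩
  have key : ∀ s, s ≤ t + 1 → ∃ f : Fin s → (Fin (m + k) → Bool) → V,
      (∀ i, Function.Injective (f i) ∧
        ∀ x y, (hypercube (m + k)).Adj x y → G.Adj (f i x) (f i y)) ∧
      (∀ i j, i ≠ j → ∀ x y x' y', (hypercube (m + k)).Adj x y → (hypercube (m + k)).Adj x' y' →
        s(f i x, f i y) ≠ s(f j x', f j y')) ∧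
      (∀ (i : Fin s) (j : Fin (t + 1)), i.val ≠ j.val → ∀ x y, (hypercube (m + k)).Adj x y →
        s(f i x, f i y) ∉ fib (φ j)) := by
    intro s
    induction s with
    | zero =>
      intro _
      exact ⟨fun i => i.elim0, fun i => i.elim0, fun i => i.elim0, fun i => i.elim0⟩
    | succ s ih =>
      intro hs
      obtain ⟨f, hf1, hf2, hf3⟩ := ih (by omega)
      have hst : s ≤ t := by omega
      let js : Fin (t + 1) := ⟨s, by omega⟩
      set E : Set (Sym2 V) := used f ∪ {e | ∃ j, j ≠ js ∧ e ∈ fib (φ j)} with hE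
      set G' := G.deleteEdges E with hG'
      have hadj : ∀ a b, G'.Adj a b ↔ G.Adj a b ∧ s(a, b) ∉ E := by
        intro a b
        rw [hG', SimpleGraph.deleteEdges_adj]
      have hEcard : ∀ v, {u | s(v, u) ∈ E}.ncard ≤ t * (m + 2 * k) := by
        intro v
        have h1 : {u | s(v, u) ∈ E} ⊆ {u | s(v, u) ∈ used f} ∪
            {u | ∃ j, j ≠ js ∧ s(v, u) ∈ fib (φ j)} := by
          rintro u (h | h)
          · exact Or.inl h
          · exact Or.inr h
        have h2 := (Set.ncard_le_ncard h1 (Set.toFinite _)).trans (Set.ncard_union_le _ _)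
        have h3 := used_card f (fun i => (hf1 i).1) v
        have h4 := fib_card_all φ hφ js v
        have h5 : s * (m + k) ≤ t * (m + k) := Nat.mul_le_mul_right _ hst
        have h6 : t * (m + k) + t * k = t * (m + 2 * k) := by ring
        omega
      have hcube : ContainsCube (m + k) G' := by
        refine Hosts.transport (φ js) (hφ js) G' ?_
        refine hprod m k B σ (G'.comap (φ js)) hB hσ hσa ?_ ?_
        · intro b z z' hzz
          change G'.Adj (φ js (b, z)) (φ js (b, z'))
          rw [hadj]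
          refine ⟨hfib js b z z' hzz, ?_⟩
          rintro (⟨i, x, y, hxy, he⟩ | ⟨j, hj, b', y, y', hy, he⟩)
          · refine hf3 i js (by have := i.2; simp only [js]; omega) x y hxy ?_
            rw [← he]
            exact ⟨b, z, z', hzz, rfl⟩
          · exact hdis js j hj.symm b z z' b' y y' hzz hy he
        · intro b
          have hone : ∀ z ∈ (univ : Finset (Fin k → Bool)),
              ({b' | b' ≠ b ∧ ¬ (G'.comap (φ js)).Adj (b, z) (b', σ z)}.ncard : ℝ) ≤
              ({b' | b' ≠ b ∧ ¬ G.Adj (φ js (b, z)) (φ js (b', σ z))}.ncard : ℝ) +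
                t * (m + 2 * k) := by
            intro z _
            have h1 : {b' | b' ≠ b ∧ ¬ (G'.comap (φ js)).Adj (b, z) (b', σ z)} ⊆
                {b' | b' ≠ b ∧ ¬ G.Adj (φ js (b, z)) (φ js (b', σ z))} ∪
                {b' | s(φ js (b, z), φ js (b', σ z)) ∈ E} := by
              rintro b' ⟨h0, h2⟩
              by_cases h3 : G.Adj (φ js (b, z)) (φ js (b', σ z))
              · right
                by_contra h4
                exact h2 ((hadj _ _).2 ⟨h3, h4⟩)
              · left
                exact ⟨h0, h3⟩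
            have h2 := (Set.ncard_le_ncard h1 (Set.toFinite _)).trans (Set.ncard_union_le _ _)
            have h3 : {b' | s(φ js (b, z), φ js (b', σ z)) ∈ E}.ncard ≤
                {u | s(φ js (b, z), u) ∈ E}.ncard := by
              refine Set.ncard_le_ncard_of_injOn (fun b' => φ js (b', σ z)) ?_ ?_ (Set.toFinite _)
              · intro b' hb'
                exact hb'
              · intro b1 _ b2 _ h
                exact congrArg Prod.fst (hφ js h)
            have h4 := hEcard (φ js (b, z))
            have h5 : {b' | b' ≠ b ∧ ¬ (G'.comap (φ js)).Adj (b, z) (b', σ z)}.ncard ≤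
                {b' | b' ≠ b ∧ ¬ G.Adj (φ js (b, z)) (φ js (b', σ z))}.ncard +
                  t * (m + 2 * k) := by omega
            exact_mod_cast h5
          refine (Finset.sum_le_sum hone).trans ?_
          rw [Finset.sum_add_distrib, Finset.sum_const, Finset.card_univ]
          simp only [Fintype.card_pi, Fintype.card_bool, prod_const, card_univ, Fintype.card_fin,
            nsmul_eq_mul, Nat.cast_pow, Nat.cast_ofNat]
          exact hnon js b
      obtain ⟨g, hg1, hg2⟩ := hcube
      have hgE : ∀ x y, (hypercube (m + k)).Adj x y → s(g x, g y) ∉ E :=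
        fun x y h => ((hadj _ _).1 (hg2 x y h)).2
      refine ⟨Fin.snoc f g, ?_, ?_, ?_⟩
      · intro i
        refine Fin.lastCases ?_ (fun i => ?_) i
        · simp only [Fin.snoc_last]
          exact ⟨hg1, fun x y h => ((hadj _ _).1 (hg2 x y h)).1⟩
        · simp only [Fin.snoc_castSucc]
          exact hf1 i
      · intro i j
        refine Fin.lastCases ?_ (fun i => ?_) i
        · refine Fin.lastCases ?_ (fun j => ?_) j
          · intro h
            exact absurd rfl h
          · intro _ x y x' y' h h' he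
            simp only [Fin.snoc_last, Fin.snoc_castSucc] at he
            exact hgE x y h (Or.inl ⟨j, x', y', h', he⟩)
        · refine Fin.lastCases ?_ (fun j => ?_) j
          · intro _ x y x' y' h h' he
            simp only [Fin.snoc_last, Fin.snoc_castSucc] at he
            exact hgE x' y' h' (Or.inl ⟨i, x, y, h, he.symm⟩)
          · intro hij x y x' y' h h'
            simp only [Fin.snoc_castSucc]
            exact hf2 i j (fun h => hij (by rw [h])) x y x' y' h h'
      · intro i j
        refine Fin.lastCases ?_ (fun i => ?_) i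
        · intro hij x y h hmem
          simp only [Fin.snoc_last] at hmem
          refine hgE x y h (Or.inr ⟨j, ?_, hmem⟩)
          intro hjs
          apply hij
          rw [hjs]
          simp [js]
        · intro hij x y h
          simp only [Fin.snoc_castSucc]
          exact hf3 i j (by simpa using hij) x y h
  obtain ⟨f, hf1, hf2, _⟩ := key (t + 1) le_rfl
  exact ⟨f, hf1, hf2⟩

end Pool.Agent.Lib.MP_33d9ce_co.PackingProduct
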