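import Pool.Agent.Lib.MP_33d9ce_co.Slack.Main
import Pool.Agent.Lib.MP_33d9ce_co.Upper

/-!
# Minimum degree thresholds forcing a spanning hypercube: a lower bound of order `2 ^ n / √n`

`threshold n` is the number `u_n` of the problem.
-/

set_option autoImplicit false

noncomputable section

open Classical Finset

namespace Pool.Agent.Lib.MP_33d9ce_co.SqrtBound

open Pool.Agent.Lib.MP_33d9ce_co Pool.Agent.Lib.MP_33d9ce_co.Slack

lemma mem_admissible {k m r n h : ℕ} {η : ℝ} (hp : Par k m r n h η) : h + 1 ∈ admissible n := by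
  refine ⟨by omega, ?_⟩
  intro G _ hdeg
  refine main_param (V := Fin (2 ^ n)) (S := Fin (17 * 2 ^ (k - 4))) hp (by simp) (by simp) G ?_
  intro v
  have h1 := hdeg v
  have h2 : ({a | ¬ G.Adj a v} : Finset (Fin (2 ^ n))).card + G.degree v = 2 ^ n := by
    have h3 : (univ.filter fun a => G.Adj a v) = G.neighborFinset v := by
      ext a
      simp [SimpleGraph.adj_comm]
    have h4 := Finset.card_filter_add_card_filter_not (s := (univ : Finset (Fin (2 ^ n))))
      (fun a => G.Adj a v)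
    rw [h3, SimpleGraph.card_neighborFinset_eq_degree, Finset.card_univ, Fintype.card_fin] at h4
    rw [add_comm]
    convert h4
  have h6 : ({a | ¬ G.Adj a v} : Finset (Fin (2 ^ n))).card ≤ h := by omega
  convert h6

/-- **Theorem.** For all large `n`, every graph on `2 ^ n` vertices with minimum degree greater than
`2 ^ n - u` contains `Q_n` for `u = 2 ^ n / (1000 √n)`; in particular `u_n ≥ ε 2 ^ n / √n` for all `n ≥ 1`,
with an absolute constant `ε > 0`. -/
theorem result :
    (∃ n0 : ℕ, ∀ n ≥ n0, (2 : ℝ) ^ n / (1000 * √n) ≤ threshold n) ∧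
    ∃ ε : ℝ, 0 < ε ∧ ∀ n : ℕ, 1 ≤ n → ε * 2 ^ n / √n ≤ threshold n := by
  obtain ⟨n0, hn0⟩ := exists_par
  have hA : ∀ n ≥ max n0 1, (2 : ℝ) ^ n / (1000 * √n) ≤ threshold n := by
    intro n hn
    obtain ⟨k, m, r, h, η, hp, hle⟩ := hn0 n (le_trans (le_max_left _ _) hn)
    have h1 : h + 1 ≤ threshold n :=
      (threshold_isGreatest (le_trans (le_max_right _ _) hn)).2 (mem_admissible hp)
    have h2 : (h : ℝ) ≤ threshold n := by exact_mod_cast le_trans (Nat.le_succ h) h1
    exact hle.trans h2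
  refine ⟨⟨max n0 1, hA⟩, ?_⟩
  set N := max n0 1 with hN
  refine ⟨min (1 / 1000) (1 / 2 ^ N), by positivity, ?_⟩
  intro n hn
  have hsq : (1 : ℝ) ≤ √n := by
    rw [Real.one_le_sqrt]
    exact_mod_cast hn
  rcases le_total N n with hle | hle
  · refine le_trans ?_ (hA n hle)
    rw [div_le_div_iff₀ (by positivity) (by positivity)]
    have h1 : min (1 / 1000) (1 / 2 ^ N) ≤ (1 / 1000 : ℝ) := min_le_left _ _
    have h2 : (0 : ℝ) ≤ 2 ^ n * √n := by positivity
    nlinarith [mul_le_mul_of_nonneg_right h1 h2]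
  · have h1 : 1 ≤ threshold n :=
      (threshold_isGreatest hn).2 (one_mem n)
    have h2 : (1 : ℝ) ≤ threshold n := by exact_mod_cast h1
    refine le_trans ?_ h2
    rw [div_le_one (by positivity)]
    refine le_trans ?_ hsq
    have h3 : min (1 / 1000) (1 / 2 ^ N) ≤ (1 / 2 ^ N : ℝ) := min_le_right _ _
    have h4 : (2 : ℝ) ^ n ≤ 2 ^ N := pow_le_pow_right₀ (by norm_num) hle
    calc min (1 / 1000) (1 / 2 ^ N) * (2 : ℝ) ^ n ≤ (1 / 2 ^ N) * 2 ^ N := by
          apply mul_le_mul h3 h4 (by positivity) (by positivity)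
      _ = 1 := by field_simp

end Pool.Agent.Lib.MP_33d9ce_co.SqrtBound
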